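import Pool.Agent.TH615.VCGraph

set_option autoImplicit false

/-!
# Sparse random graphs without complete bipartite subgraphs

A graph without `K_{a,b}`, `b = 2 ^ c`, has VC-dimension at most `a + c`. A random graph with edge
probability `1 / q` and `q ^ (a - 2)` vertices has no `K_{a,b}` if `(a - 1) ^ 2 ≤ 2 b`.
-/

namespace Pool.Agent.Y422.RC

open Finset Pool.Agent.TH458.VC Pool.Agent.TH458.VCB

open scoped Classical in
theorem vc_of_noBip {V : Type} (G : SimpleGraph V) (a c : ℕ)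
    (hfree : ∀ A B : Finset V, A.card = a → B.card = 2 ^ c → ¬ ∀ x ∈ A, ∀ y ∈ B, G.Adj x y) :
    VCle G (a + c) := by
  intro S hS
  by_contra hcon
  push Not at hcon
  obtain ⟨A, hAS, hA⟩ := Finset.exists_subset_card_eq (show a ≤ S.card by omega)
  have hdc : c ≤ (S \ A).card := by
    rw [card_sdiff_of_subset hAS]
    omega
  obtain ⟨C, hCS, hC⟩ := Finset.exists_subset_card_eq hdc
  have hCS' : C ⊆ S := hCS.trans sdiff_subset
  have key : ∀ T : Finset V, ∃ v, T ⊆ C → ∀ x ∈ S, (G.Adj v x ↔ x ∈ A ∪ T) := by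
    intro T
    by_cases hT : T ⊆ C
    · obtain ⟨v, hv⟩ := hS (A ∪ T) (union_subset hAS (hT.trans hCS'))
      exact ⟨v, fun _ => hv⟩
    · by_cases hne : Nonempty V
      · exact ⟨hne.some, fun h => absurd h hT⟩
      · exfalso
        rw [not_nonempty_iff] at hne
        have : S = ∅ := by
          ext x
          exact (hne.false x).elim
        rw [this, card_empty] at hcon
        omega
  choose v hv using key
  refine hfree A (C.powerset.image v) hA ?_ ?_
  · rw [card_image_of_injOn, card_powerset, hC]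
    intro T hT T' hT' hTT
    rw [mem_coe, mem_powerset] at hT hT'
    have aux : ∀ T T' : Finset V, T ⊆ C → T' ⊆ C → v T = v T' → T ⊆ T' := by
      intro T T' hT hT' hTT x hx
      have hxC := hT hx
      have hxS := hCS' hxC
      have hxA : x ∉ A := (mem_sdiff.1 (hCS hxC)).2
      have h1 : G.Adj (v T) x := (hv T hT x hxS).2 (mem_union_right _ hx)
      rw [hTT] at h1
      have h2 := (hv T' hT' x hxS).1 h1
      rcases mem_union.1 h2 with h3 | h3
      · exact absurd h3 hxA
      · exact h3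
    exact Subset.antisymm (aux T T' hT hT' hTT) (aux T' T hT' hT hTT.symm)
  · intro x hx y hy
    rw [mem_image] at hy
    obtain ⟨T, hT, rfl⟩ := hy
    rw [mem_powerset] at hT
    exact ((hv T hT x (hAS hx)).2 (mem_union_left _ hx)).symm

/-- the pairs between two sets -/
noncomputable def bp {n : ℕ} (A B : Finset (Fin n)) : Finset (Sym2 (Fin n)) :=
  (A ×ˢ B).image (fun p => s(p.1, p.2))

theorem card_bp {n : ℕ} (A B : Finset (Fin n)) (h : Disjoint A B) :
    (bp A B).card = A.card * B.card := by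
  unfold bp
  rw [card_image_of_injOn, card_product]
  rintro ⟨x, y⟩ hp ⟨x', y'⟩ hp' he
  rw [mem_coe, mem_product] at hp hp'
  simp only [Sym2.eq, Sym2.rel_iff'] at he
  rcases he with he | he
  · exact he
  · simp only [Prod.mk.injEq, Prod.swap_prod_mk] at he
    exfalso
    obtain ⟨h1, h2⟩ := he
    subst h1
    exact disjoint_left.1 h hp.1 hp'.2

open scoped Classical in
theorem bip_count (n a b q : ℕ) (hq : 1 ≤ q) :
    ((univ.filter (fun f : Sym2 (Fin n) → Fin q => ∃ A B : Finset (Fin n), A.card = a ∧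
      B.card = b ∧ ∀ x ∈ A, ∀ y ∈ B, (Gf f).Adj x y)).card : ℝ) ≤
      ((n.choose a : ℝ) * (n.choose b : ℝ)) * ((q : ℝ) ^ Fintype.card (Sym2 (Fin n)) *
        (1 / (q : ℝ)) ^ (a * b)) := by
  have h := union_bound (q := q)
    ((powersetCard a (univ : Finset (Fin n))) ×ˢ (powersetCard b (univ : Finset (Fin n))))
    (univ.filter (fun f : Sym2 (Fin n) → Fin q => ∃ A B : Finset (Fin n), A.card = a ∧
      B.card = b ∧ ∀ x ∈ A, ∀ y ∈ B, (Gf f).Adj x y))
    (fun p => univ.filter (fun f : Sym2 (Fin n) → Fin q => Disjoint p.1 p.2 ∧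
      ∀ e ∈ bp p.1 p.2, f e ∈ A0 q))
    ((q : ℝ) ^ Fintype.card (Sym2 (Fin n)) * (1 / (q : ℝ)) ^ (a * b)) (by
      intro f hf
      rw [mem_filter] at hf
      obtain ⟨-, A, B, hA, hB, hadj⟩ := hf
      refine ⟨(A, B), ?_, ?_⟩
      · rw [mem_product, mem_powersetCard, mem_powersetCard]
        exact ⟨⟨subset_univ _, hA⟩, ⟨subset_univ _, hB⟩⟩
      · rw [mem_filter]
        refine ⟨mem_univ _, ?_, ?_⟩
        · rw [disjoint_left]
          intro x hx hx'
          exact (hadj x hx x hx').1 rfl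
        · intro e he
          unfold bp at he
          rw [mem_image] at he
          obtain ⟨p, hp, rfl⟩ := he
          rw [mem_product] at hp
          unfold A0
          rw [mem_filter]
          exact ⟨mem_univ _, (hadj p.1 hp.1 p.2 hp.2).2⟩) (by
      intro p hp
      rw [mem_product, mem_powersetCard, mem_powersetCard] at hp
      by_cases hd : Disjoint p.1 p.2
      · have e : (univ.filter (fun f : Sym2 (Fin n) → Fin q => Disjoint p.1 p.2 ∧
            ∀ e ∈ bp p.1 p.2, f e ∈ A0 q)) =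
            univ.filter (fun f : Sym2 (Fin n) → Fin q => ∀ e ∈ bp p.1 p.2, f e ∈ A0 q) := by
          apply filter_congr
          intro f _
          simp [hd]
        rw [e, count_eq hq, card_bp _ _ hd, hp.1.2, hp.2.2, card_A0 hq, Nat.cast_one]
      · have e : (univ.filter (fun f : Sym2 (Fin n) → Fin q => Disjoint p.1 p.2 ∧
            ∀ e ∈ bp p.1 p.2, f e ∈ A0 q)) = ∅ := by
          apply filter_false_of_mem
          intro f _ h1
          exact hd h1.1
        rw [e, card_empty, Nat.cast_zero]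
        positivity)
  rw [card_product, card_powersetCard, card_powersetCard, card_univ, Fintype.card_fin] at h
  push_cast at h
  exact h

open scoped Classical in
theorem exists_graph2 (n k q a b : ℕ) (hq : 1 ≤ q)
    (hlt : (n.choose k : ℝ) * (1 / (q : ℝ)) ^ (k.choose 2)
      + (n.choose k : ℝ) * (1 - 1 / (q : ℝ)) ^ (k.choose 2)
      + (n.choose a : ℝ) * (n.choose b : ℝ) * (1 / (q : ℝ)) ^ (a * b) < 1) :
    ∃ G : SimpleGraph (Fin n), G.CliqueFree k ∧ Gᶜ.CliqueFree k ∧
      ∀ A B : Finset (Fin n), A.card = a → B.card = b → ¬ ∀ x ∈ A, ∀ y ∈ B, G.Adj x y := by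
  by_contra hcon
  push Not at hcon
  have hq0 : (0 : ℝ) < q := by
    have : 0 < q := hq
    exact_mod_cast this
  set M := Fintype.card (Sym2 (Fin n)) with hM
  have h1 := clique_count n k q hq
  have h2 := indep_count n k q hq
  have h3 := bip_count n a b q hq
  rw [← hM] at h1 h2 h3
  have h4 : (univ : Finset (Sym2 (Fin n) → Fin q)) ⊆
      (univ.filter (fun f : Sym2 (Fin n) → Fin q => ¬ (Gf f).CliqueFree k)) ∪
      ((univ.filter (fun f : Sym2 (Fin n) → Fin q => ¬ (Gf f)ᶜ.CliqueFree k)) ∪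
      (univ.filter (fun f : Sym2 (Fin n) → Fin q => ∃ A B : Finset (Fin n), A.card = a ∧
      B.card = b ∧ ∀ x ∈ A, ∀ y ∈ B, (Gf f).Adj x y))) := by
    intro f _
    rw [mem_union, mem_union, mem_filter, mem_filter, mem_filter]
    by_cases ha : (Gf f).CliqueFree k
    · by_cases hb : (Gf f)ᶜ.CliqueFree k
      · exact Or.inr (Or.inr ⟨mem_univ _, hcon _ ha hb⟩)
      · exact Or.inr (Or.inl ⟨mem_univ _, hb⟩)
    · exact Or.inl ⟨mem_univ _, ha⟩
  have h5 := ((card_le_card h4).trans (card_union_le _ _)).trans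
    (Nat.add_le_add_left (card_union_le _ _) _)
  rw [card_univ, Fintype.card_fun, Fintype.card_fin, ← hM] at h5
  have h6 : (q : ℝ) ^ M ≤
      ((univ.filter (fun f : Sym2 (Fin n) → Fin q => ¬ (Gf f).CliqueFree k)).card : ℝ) +
      (((univ.filter (fun f : Sym2 (Fin n) → Fin q => ¬ (Gf f)ᶜ.CliqueFree k)).card : ℝ) +
      ((univ.filter (fun f : Sym2 (Fin n) → Fin q => ∃ A B : Finset (Fin n), A.card = a ∧
      B.card = b ∧ ∀ x ∈ A, ∀ y ∈ B, (Gf f).Adj x y)).card : ℝ)) := by
    exact_mod_cast h5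
  have hqM : (0 : ℝ) < (q : ℝ) ^ M := by positivity
  have h7 : (q : ℝ) ^ M ≤ (q : ℝ) ^ M * ((n.choose k : ℝ) * (1 / (q : ℝ)) ^ (k.choose 2)
      + (n.choose k : ℝ) * (1 - 1 / (q : ℝ)) ^ (k.choose 2)
      + (n.choose a : ℝ) * (n.choose b : ℝ) * (1 / (q : ℝ)) ^ (a * b)) := by
    refine h6.trans ((add_le_add h1 (add_le_add h2 h3)).trans (le_of_eq ?_))
    ring
  have h8 := mul_lt_mul_of_pos_left hlt hqM
  linarith

/-- **The finite lower bound.** -/
theorem vc_lower (a c q k : ℕ) (hq : 4 ≤ q) (ha : 3 ≤ a) (hac : (a - 1) ^ 2 ≤ 2 * 2 ^ c)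
    (hk : 2 * (q : ℝ) * (a * Real.log q + 1) + 1 ≤ k) :
    ∃ G : SimpleGraph (Fin (q ^ (a - 2))), G.CliqueFree k ∧ Gᶜ.CliqueFree k ∧ VCle G (a + c) := by
  have hq0 : (0 : ℝ) < q := by
    have : 0 < q := by omega
    exact_mod_cast this
  have hq4 : (4 : ℝ) ≤ q := by exact_mod_cast hq
  have hlogq : 0 ≤ Real.log q := Real.log_nonneg (by linarith)
  have hk2 : (2 : ℝ) ≤ k := by
    have : 0 ≤ (a : ℝ) * Real.log q := by positivity
    nlinarith
  have hinv : 1 / (q : ℝ) ≤ 1 / 4 := one_div_le_one_div_of_le (by norm_num) hq4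
  have hinv0 : 0 < 1 / (q : ℝ) := by positivity
  obtain ⟨G, h1, h2, h3⟩ := exists_graph2 (q ^ (a - 2)) k q a (2 ^ c) (by omega) (by
    have hmain : ((q ^ (a - 2) : ℕ).choose k : ℝ) * (1 - 1 / (q : ℝ)) ^ (k.choose 2) ≤
        Real.exp (-2) := by
      have e1 : ((q ^ (a - 2) : ℕ).choose k : ℝ) ≤ ((q ^ (a - 2) : ℕ) : ℝ) ^ k := by
        exact_mod_cast Nat.choose_le_pow _ _
      have e2 : (1 - 1 / (q : ℝ)) ^ (k.choose 2) ≤ Real.exp (-(1 / q)) ^ (k.choose 2) := by
        apply pow_le_pow_left₀ (by linarith)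
        have := Real.add_one_le_exp (-(1 / (q : ℝ)))
        linarith
      have e3 : ((q ^ (a - 2) : ℕ) : ℝ) ^ k = Real.exp (k * (((a - 2 : ℕ) : ℝ) * Real.log q)) := by
        push_cast
        rw [← pow_mul, mul_comm, pow_mul, ← Real.rpow_natCast ((q : ℝ) ^ k), ← Real.rpow_natCast (q : ℝ),
          ← Real.rpow_mul hq0.le, Real.rpow_def_of_pos hq0]
        congr 1
        ring
      have e4 : Real.exp (-(1 / (q : ℝ))) ^ (k.choose 2) =
          Real.exp (-(k * (k - 1) / (2 * q))) := by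
        rw [← Real.exp_nat_mul, Nat.cast_choose_two]
        congr 1
        field_simp
      calc ((q ^ (a - 2) : ℕ).choose k : ℝ) * (1 - 1 / (q : ℝ)) ^ (k.choose 2)
          ≤ Real.exp (k * (((a - 2 : ℕ) : ℝ) * Real.log q)) * Real.exp (-(k * (k - 1) / (2 * q))) := by
            rw [← e3, ← e4]
            apply mul_le_mul e1 e2
            · exact pow_nonneg (by linarith) _
            · positivity
        _ ≤ Real.exp (-2) := by
            rw [← Real.exp_add, Real.exp_le_exp]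
            have ha2 : (((a - 2 : ℕ) : ℝ)) ≤ a := by exact_mod_cast Nat.sub_le _ _
            have hle : ((a - 2 : ℕ) : ℝ) * Real.log q + 1 ≤ (k - 1) / (2 * q) := by
              rw [le_div_iff₀ (by positivity)]
              have := mul_le_mul_of_nonneg_right ha2 hlogq
              nlinarith
            have e5 : (k : ℝ) * (((a - 2 : ℕ) : ℝ) * Real.log q) + -(k * (k - 1) / (2 * q)) =
                k * ((((a - 2 : ℕ) : ℝ) * Real.log q + 1) - (k - 1) / (2 * q)) - k := by ring
            rw [e5]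
            nlinarith
    have hexp : Real.exp (-2) ≤ 1 / 4 := by
      rw [Real.exp_neg, inv_eq_one_div]
      apply one_div_le_one_div_of_le (by norm_num)
      have h1 := Real.add_one_le_exp (1 : ℝ)
      have h2 : Real.exp 2 = Real.exp 1 * Real.exp 1 := by rw [← Real.exp_add]; norm_num
      nlinarith [Real.exp_pos 1]
    have hfirst : ((q ^ (a - 2) : ℕ).choose k : ℝ) * (1 / (q : ℝ)) ^ (k.choose 2) ≤
        ((q ^ (a - 2) : ℕ).choose k : ℝ) * (1 - 1 / (q : ℝ)) ^ (k.choose 2) := by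
      apply mul_le_mul_of_nonneg_left _ (by positivity)
      exact pow_le_pow_left₀ hinv0.le (by linarith) _
    have hthird : ((q ^ (a - 2) : ℕ).choose a : ℝ) * ((q ^ (a - 2) : ℕ).choose (2 ^ c) : ℝ) *
        (1 / (q : ℝ)) ^ (a * 2 ^ c) ≤ 1 / 4 := by
      have e1 : ((q ^ (a - 2) : ℕ).choose a : ℝ) ≤ ((q ^ (a - 2) : ℕ) : ℝ) ^ a := by
        exact_mod_cast Nat.choose_le_pow _ _
      have e2 : ((q ^ (a - 2) : ℕ).choose (2 ^ c) : ℝ) ≤ ((q ^ (a - 2) : ℕ) : ℝ) ^ (2 ^ c) := by
        exact_mod_cast Nat.choose_le_pow _ _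
      have e3 : (a - 2) * (a + 2 ^ c) + 1 ≤ a * 2 ^ c := by
        obtain ⟨s, rfl⟩ : ∃ s, a = s + 2 := ⟨a - 2, by omega⟩
        have e4 : s + 2 - 1 = s + 1 := by omega
        have e5 : s + 2 - 2 = s := by omega
        rw [e4] at hac
        rw [e5]
        nlinarith
      calc ((q ^ (a - 2) : ℕ).choose a : ℝ) * ((q ^ (a - 2) : ℕ).choose (2 ^ c) : ℝ) *
          (1 / (q : ℝ)) ^ (a * 2 ^ c)
          ≤ (((q ^ (a - 2) : ℕ) : ℝ) ^ a * ((q ^ (a - 2) : ℕ) : ℝ) ^ (2 ^ c)) *
            (1 / (q : ℝ)) ^ (a * 2 ^ c) := by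
            apply mul_le_mul_of_nonneg_right _ (by positivity)
            exact mul_le_mul e1 e2 (by positivity) (by positivity)
        _ = (q : ℝ) ^ ((a - 2) * (a + 2 ^ c)) * (1 / (q : ℝ)) ^ (a * 2 ^ c) := by
            push_cast
            rw [← pow_add, ← pow_mul]
        _ ≤ (q : ℝ) ^ ((a - 2) * (a + 2 ^ c)) * (1 / (q : ℝ)) ^ ((a - 2) * (a + 2 ^ c) + 1) := by
            apply mul_le_mul_of_nonneg_left _ (by positivity)
            exact pow_le_pow_of_le_one hinv0.le (by linarith) e3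
        _ = 1 / q := by
            rw [pow_succ, ← mul_assoc, ← mul_pow, mul_one_div_cancel hq0.ne', one_pow, one_mul]
        _ ≤ 1 / 4 := hinv
    linarith)
  exact ⟨G, h1, h2, vc_of_noBip G a c h3⟩

end Pool.Agent.Y422.RC
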