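import Pool.Agent.Y422.RC.VCUp
import Pool.Agent.Y422.RC.VCLow

set_option autoImplicit false

/-!
# Sharp asymptotics of the Ramsey numbers of graphs of bounded VC-dimension
-/

namespace Pool.Agent.Y422.RC

open Finset Pool.Agent.TH458.VC

lemma log_le_sqrt' {y : ℝ} (hy : 0 < y) : Real.log y ≤ Real.sqrt y := by
  have h1 : Real.log y = 2 * Real.log (Real.sqrt y) := by
    rw [Real.log_sqrt hy.le]; ring
  have hs : 0 < Real.sqrt y := Real.sqrt_pos.2 hy
  have h2 : Real.log (Real.sqrt y / 2) ≤ Real.sqrt y / 2 - 1 :=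
    Real.log_le_sub_one_of_pos (by positivity)
  rw [Real.log_div hs.ne' (by norm_num)] at h2
  have h3 : Real.log 2 ≤ 1 := by
    have := Real.log_two_lt_d9
    linarith
  linarith

lemma choose_le_exp (h k : ℕ) (hh : 1 ≤ h) (hhk : h ≤ k) :
    Real.log ((h + k).choose h) ≤ h * (1 + Real.log (2 * k / h)) := by
  have hh0 : (0 : ℝ) < h := by exact_mod_cast hh
  have hk0 : (0 : ℝ) < k := by
    have : 0 < k := by omega
    exact_mod_cast this
  have hhk' : (h : ℝ) ≤ k := by exact_mod_cast hhk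
  have h1 : (((h + k).choose h : ℕ) : ℝ) ≤ ((h + k : ℕ) : ℝ) ^ h / (h.factorial : ℝ) :=
    Nat.choose_le_pow_div h (h + k)
  have h2 : (h : ℝ) ^ h / (h.factorial : ℝ) ≤ Real.exp h :=
    Real.pow_div_factorial_le_exp (h : ℝ) hh0.le h
  have hf : (0 : ℝ) < (h.factorial : ℝ) := by exact_mod_cast Nat.factorial_pos h
  have h3 : (((h + k).choose h : ℕ) : ℝ) ≤ (2 * k / h) ^ h * Real.exp h := by
    calc (((h + k).choose h : ℕ) : ℝ) ≤ ((h + k : ℕ) : ℝ) ^ h / (h.factorial : ℝ) := h1
      _ ≤ (2 * k) ^ h / (h.factorial : ℝ) := by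
          apply div_le_div_of_nonneg_right _ hf.le
          apply pow_le_pow_left₀ (by positivity)
          push_cast; linarith
      _ = (2 * k / h) ^ h * ((h : ℝ) ^ h / (h.factorial : ℝ)) := by
          rw [div_pow]; field_simp
      _ ≤ (2 * k / h) ^ h * Real.exp h := by
          apply mul_le_mul_of_nonneg_left h2 (by positivity)
  have h4 : (0 : ℝ) < (((h + k).choose h : ℕ) : ℝ) := by
    exact_mod_cast Nat.choose_pos (by omega)
  refine (Real.log_le_log h4 h3).trans (le_of_eq ?_)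
  rw [Real.log_mul (by positivity) (by positivity), Real.log_pow, Real.log_exp]
  ring

/-- the upper bound, asymptotic form -/
theorem vc_upper_asy (ε : ℝ) (hε : 0 < ε) (hε1 : ε ≤ 1) : ∃ C : ℝ, 1 ≤ C ∧ ∀ d k : ℕ, 2 ≤ k →
    C * Real.sqrt (k / Real.log k) ≤ d → C * d ≤ k →
    ∀ (n : ℕ) (G : SimpleGraph (Fin n)), VCle G d → G.CliqueFree k → Gᶜ.CliqueFree k →
      Real.log n ≤ (1 + ε) * (d * Real.log (k / d)) := by
  -- `η = ε / 40`, `κ = 8 / (η ε)`
  obtain ⟨η, hη⟩ : ∃ η : ℝ, η = ε / 40 := ⟨_, rfl⟩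
  have hη0 : 0 < η := by rw [hη]; positivity
  obtain ⟨κ, hκ⟩ : ∃ κ : ℝ, κ = 8 / (η * ε) := ⟨_, rfl⟩
  have hκ0 : 0 < κ := by rw [hκ]; positivity
  have hA : ∀ᶠ x : ℝ in Filter.atTop, max (8 * κ) (max (2 / η) (400 / ε)) ≤ Real.log x :=
    Real.tendsto_log_atTop.eventually_ge_atTop _
  obtain ⟨X, hX⟩ := Filter.eventually_atTop.1 (hA.and (Filter.eventually_ge_atTop 4))
  refine ⟨max X (max (64 / ε) (max 4 (4 * κ))), le_trans (by norm_num)
    ((le_max_left _ _).trans ((le_max_right _ _).trans (le_max_right _ _))), ?_⟩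
  set C := max X (max (64 / ε) (max 4 (4 * κ))) with hCdef
  have hCX : X ≤ C := le_max_left _ _
  have hC64 : 64 / ε ≤ C := (le_max_left _ _).trans (le_max_right _ _)
  have hC4 : 4 ≤ C := (le_max_left _ _).trans ((le_max_right _ _).trans (le_max_right _ _))
  have hCκ : 4 * κ ≤ C := (le_max_right _ _).trans ((le_max_right _ _).trans (le_max_right _ _))
  intro d k hk h1 h2 n G hG hGk hGk'
  have hk1 : (2 : ℝ) ≤ k := by exact_mod_cast hk
  have hk0 : (0 : ℝ) < k := by linarith
  have hlogk : 0 < Real.log k := Real.log_pos (by linarith)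
  have hlogk2 : Real.log k ≤ k := by
    have := Real.log_le_sub_one_of_pos hk0
    linarith
  have hsk : 1 ≤ Real.sqrt (k / Real.log k) := by
    rw [Real.one_le_sqrt, le_div_iff₀ hlogk]; linarith
  have hC0 : 0 < C := by linarith
  have hdC : C ≤ d := by nlinarith
  have hd0 : (0 : ℝ) < d := by linarith
  have hd1 : 1 ≤ d := by
    have : (0 : ℝ) < (d : ℝ) := hd0
    have : 0 < d := by exact_mod_cast this
    omega
  -- the parameters
  obtain ⟨x, hx⟩ : ∃ x : ℝ, x = k / d := ⟨_, rfl⟩
  obtain ⟨y, hy⟩ : ∃ y : ℝ, y = d ^ 2 / k := ⟨_, rfl⟩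
  have hxC : C ≤ x := by rw [hx, le_div_iff₀ hd0]; exact h2
  have hx0 : 0 < x := by linarith
  have hy0 : 0 < y := by rw [hy]; positivity
  have hdxy : (d : ℝ) = x * y := by
    rw [hx, hy]; field_simp
  have hkxy : (k : ℝ) = x ^ 2 * y := by
    rw [hx, hy]; field_simp
  have hlk : Real.log k = 2 * Real.log x + Real.log y := by
    rw [hkxy, Real.log_mul (by positivity) hy0.ne', Real.log_pow]
    push_cast; ring
  have hyC : C ^ 2 ≤ y * (2 * Real.log x + Real.log y) := by
    rw [← hlk, hy]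
    have h3 : (C * Real.sqrt (k / Real.log k)) ^ 2 ≤ (d : ℝ) ^ 2 :=
      pow_le_pow_left₀ (by positivity) h1 2
    rw [mul_pow, Real.sq_sqrt (by positivity), mul_div_assoc', div_le_iff₀ hlogk] at h3
    rw [div_mul_eq_mul_div, le_div_iff₀ hk0]
    exact h3
  obtain ⟨hXx, hx4⟩ := hX x (hCX.trans hxC)
  have hlx1 : 8 * κ ≤ Real.log x := (le_max_left _ _).trans hXx
  have hlx2 : 2 / η ≤ Real.log x := (le_max_left _ _).trans ((le_max_right _ _).trans hXx)
  have hlx3 : 400 / ε ≤ Real.log x := (le_max_right _ _).trans ((le_max_right _ _).trans hXx)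
  have hlx400 : 400 ≤ Real.log x := by
    refine le_trans ?_ hlx3
    rw [le_div_iff₀ hε]; linarith
  -- the finite bound
  obtain ⟨z, hz⟩ : ∃ z : ℝ, z = x / (η * Real.log x) := ⟨_, rfl⟩
  have hηl : 2 ≤ η * Real.log x := by
    rw [div_le_iff₀ hη0] at hlx2
    linarith
  have hηl0 : 0 < η * Real.log x := by linarith
  have hz0 : 0 < z := by rw [hz]; positivity
  have hz1 : 1 ≤ z := by
    rw [hz, le_div_iff₀ hηl0]
    have e1 := Real.log_le_sub_one_of_pos hx0
    have e2 : η ≤ 1 := by rw [hη]; linarith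
    nlinarith
  have hzx : 2 * z ≤ x := by
    rw [hz, mul_div_assoc', div_le_iff₀ hηl0]
    nlinarith
  set h : ℕ := ⌈z⌉₊ with hh
  have hhz : z ≤ h := Nat.le_ceil z
  have hhz2 : (h : ℝ) ≤ 2 * z := by
    have := Nat.ceil_lt_add_one hz0.le
    rw [← hh] at this
    linarith
  have hh1 : 1 ≤ h := Nat.one_le_ceil_iff.2 hz0
  have hh0 : (0 : ℝ) < h := by exact_mod_cast hh1
  have hhx : (h : ℝ) ≤ x := hhz2.trans hzx
  have hxk : x ≤ k := by
    rw [hx, div_le_iff₀ hd0]
    have : (1 : ℝ) ≤ d := by linarith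
    nlinarith
  have hhk : h ≤ k := by exact_mod_cast hhx.trans hxk
  set T : ℕ := ⌈(k : ℝ) / h⌉₊ with hT
  have hT1 : 1 ≤ T := Nat.one_le_ceil_iff.2 (by positivity)
  have hkT : k ≤ T * h := by
    have e1 : (k : ℝ) / h ≤ T := Nat.le_ceil _
    rw [div_le_iff₀ hh0] at e1
    exact_mod_cast e1
  have hTup : (T : ℝ) ≤ η * (d * Real.log x) + 1 := by
    have e1 := Nat.ceil_lt_add_one (show (0 : ℝ) ≤ (k : ℝ) / h by positivity)
    rw [← hT] at e1
    have e2 : (k : ℝ) / h ≤ η * (d * Real.log x) := by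
      rw [div_le_iff₀ hh0]
      calc (k : ℝ) = η * (d * Real.log x) * z := by
            rw [hz, hkxy, hdxy]; field_simp
        _ ≤ η * (d * Real.log x) * h := mul_le_mul_of_nonneg_left hhz (by positivity)
    linarith
  rcases Nat.eq_zero_or_pos n with hn | hn
  · subst hn
    simp only [Nat.cast_zero, Real.log_zero]
    rw [← hx]
    have : 0 ≤ Real.log x := by linarith
    positivity
  have hfin := vc_upper G hG hh1 hT1 hkT hGk hGk'
  have hn0 : (0 : ℝ) < n := by exact_mod_cast hn
  have hfin' : (n : ℝ) ≤ 8 ^ (2 * T) * (h * (88 * h) ^ d * (h + k).choose h) := by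
    exact_mod_cast hfin.le
  have hch0 : (0 : ℝ) < ((h + k).choose h : ℝ) := by
    exact_mod_cast Nat.choose_pos (by omega)
  have hlog : Real.log n ≤ (2 * T) * Real.log 8 + (Real.log h + d * (Real.log 88 + Real.log h) +
      Real.log ((h + k).choose h)) := by
    refine (Real.log_le_log hn0 hfin').trans (le_of_eq ?_)
    rw [Real.log_mul (by positivity) (by positivity), Real.log_mul (by positivity) (by positivity),
      Real.log_mul (by positivity) (by positivity), Real.log_pow, Real.log_pow,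
      Real.log_mul (by norm_num) (by positivity)]
    push_cast
    ring
  have hlogh : Real.log h ≤ Real.log x := Real.log_le_log hh0 hhx
  have hl2 : Real.log 2 ≤ 0.7 := by
    have := Real.log_two_lt_d9
    linarith
  have hl8 : Real.log 8 ≤ 2.1 := by
    have : Real.log 8 = 3 * Real.log 2 := by
      rw [show (8 : ℝ) = 2 ^ 3 by norm_num, Real.log_pow]; norm_num
    linarith
  have hl88 : Real.log 88 ≤ 4.9 := by
    have : Real.log 88 ≤ 7 * Real.log 2 := by
      rw [← Real.log_rpow (by norm_num)]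
      exact Real.log_le_log (by norm_num) (by norm_num)
    linarith
  have hM0 : 0 ≤ (d : ℝ) * Real.log x := by
    have : 0 ≤ Real.log x := by linarith
    positivity
  -- the binomial coefficient
  have hterm : Real.log ((h + k).choose h) ≤ (ε / 4) * (d * Real.log x) := by
    have e1 := choose_le_exp h k hh1 hhk
    have e2 : Real.log (2 * k / h) ≤ 3 * Real.log x + Real.log y := by
      have f1 : 2 * (k : ℝ) / h ≤ 2 * (η * (d * Real.log x)) := by
        rw [div_le_iff₀ hh0]
        calc 2 * (k : ℝ) = 2 * (η * (d * Real.log x)) * z := by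
              rw [hz, hkxy, hdxy]; field_simp
          _ ≤ 2 * (η * (d * Real.log x)) * h := mul_le_mul_of_nonneg_left hhz (by positivity)
      have f2 : 2 * (η * (d * Real.log x)) ≤ x ^ 3 * y := by
        rw [hdxy]
        have g1 : Real.log x ≤ x := by
          have := Real.log_le_sub_one_of_pos hx0
          linarith
        have g2 : 2 * η ≤ 1 := by rw [hη]; linarith
        have g3 : 0 ≤ Real.log x := by linarith
        calc 2 * (η * (x * y * Real.log x)) = (2 * η) * (x * y * Real.log x) := by ring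
          _ ≤ 1 * (x * y * x) := by gcongr
          _ ≤ x * (x * y * x) := by
              apply mul_le_mul_of_nonneg_right _ (by positivity)
              linarith
          _ = x ^ 3 * y := by ring
      calc Real.log (2 * k / h) ≤ Real.log (x ^ 3 * y) :=
            Real.log_le_log (by positivity) (f1.trans f2)
        _ = 3 * Real.log x + Real.log y := by
            rw [Real.log_mul (by positivity) hy0.ne', Real.log_pow]; norm_num
    have e3 : κ * (4 * Real.log x + Real.log y) ≤ y * Real.log x ^ 2 := by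
      rcases le_or_gt y 1 with hy1 | hy1
      · have g1 : Real.log y ≤ 0 := Real.log_nonpos hy0.le hy1
        have g2 : C ^ 2 ≤ y * (2 * Real.log x) := by
          refine hyC.trans ?_
          apply mul_le_mul_of_nonneg_left _ hy0.le
          linarith
        have g3 : 8 * κ ≤ C ^ 2 := by nlinarith
        have g4 : 8 * κ * Real.log x ≤ y * (2 * Real.log x) * Real.log x :=
          mul_le_mul_of_nonneg_right (g3.trans g2) (by linarith)
        nlinarith
      · have g1 : Real.log y ≤ y := by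
          have := Real.log_le_sub_one_of_pos hy0
          linarith
        have g0 : 0 ≤ Real.log y := Real.log_nonneg hy1.le
        have g2 : 8 * κ * Real.log x ≤ Real.log x * Real.log x :=
          mul_le_mul_of_nonneg_right hlx1 (by linarith)
        have g3 : 4 * κ * Real.log x ≤ (1 / 2) * (y * Real.log x ^ 2) := by
          have : Real.log x ^ 2 ≤ y * Real.log x ^ 2 := by nlinarith [sq_nonneg (Real.log x)]
          nlinarith
        have g4 : κ * Real.log y ≤ (1 / 2) * (y * Real.log x ^ 2) := by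
          have f1 : 2 * κ ≤ Real.log x ^ 2 := by nlinarith
          have f2 : κ * Real.log y ≤ κ * y := mul_le_mul_of_nonneg_left g1 hκ0.le
          nlinarith
        linarith
    calc Real.log ((h + k).choose h) ≤ h * (1 + Real.log (2 * k / h)) := e1
      _ ≤ h * (4 * Real.log x + Real.log y) := by
          apply mul_le_mul_of_nonneg_left _ hh0.le
          linarith
      _ ≤ (2 * z) * (4 * Real.log x + Real.log y) := by
          apply mul_le_mul_of_nonneg_right hhz2
          have : 0 < Real.log k := hlogk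
          linarith
      _ ≤ (ε / 4) * (d * Real.log x) := by
          rw [hdxy, hz]
          have f1 : 4 * Real.log x + Real.log y ≤ y * Real.log x ^ 2 / κ := by
            rw [le_div_iff₀ hκ0]; linarith
          have f2 : 2 * (x / (η * Real.log x)) * (4 * Real.log x + Real.log y) ≤
              2 * (x / (η * Real.log x)) * (y * Real.log x ^ 2 / κ) := by
            apply mul_le_mul_of_nonneg_left f1 (by positivity)
          refine f2.trans (le_of_eq ?_)
          rw [hκ]
          have : Real.log x ≠ 0 := by linarith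
          field_simp
          ring
  have hconst : 10 * (d : ℝ) ≤ (ε / 8) * (d * Real.log x) := by
    have e1 : 80 ≤ ε * Real.log x := by
      rw [div_le_iff₀ hε] at hlx3
      linarith
    nlinarith
  have hsmall : Real.log x ≤ (ε / 8) * (d * Real.log x) := by
    have e1 : 64 ≤ ε * d := by
      have := hC64.trans hdC
      rw [div_le_iff₀ hε] at this
      linarith
    have : 0 ≤ Real.log x := by linarith
    nlinarith
  have hTterm : (2 * T) * Real.log 8 ≤ (ε / 4) * (d * Real.log x) + 5 := by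
    have e1 : (2 * (T : ℝ)) * Real.log 8 ≤ (2 * T) * 2.1 :=
      mul_le_mul_of_nonneg_left hl8 (by positivity)
    have e2 : (2 * (T : ℝ)) * 2.1 ≤ (2 * (η * (d * Real.log x) + 1)) * 2.1 := by
      apply mul_le_mul_of_nonneg_right _ (by norm_num)
      linarith
    rw [hη] at e2
    nlinarith
  rw [← hx]
  have e9 : (d : ℝ) * Real.log h ≤ d * Real.log x :=
    mul_le_mul_of_nonneg_left hlogh hd0.le
  have e10 : (d : ℝ) * Real.log 88 ≤ d * 4.9 := mul_le_mul_of_nonneg_left hl88 hd0.le
  have e11 : (1 : ℝ) ≤ d := by linarith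
  nlinarith

/-- the lower bound, asymptotic form -/
theorem vc_lower_asy (ε : ℝ) (hε : 0 < ε) (hε1 : ε ≤ 1) : ∃ C : ℝ, 1 ≤ C ∧ ∀ d k : ℕ,
    C ≤ d → C * d ≤ k →
    ∃ (n : ℕ) (G : SimpleGraph (Fin n)), VCle G d ∧ G.CliqueFree k ∧ Gᶜ.CliqueFree k ∧
      (1 - ε) * (d * Real.log (k / d)) ≤ Real.log n := by
  have hA : ∀ᶠ x : ℝ in Filter.atTop, 5 * Real.log x ≤ x ^ (ε / 4) := by
    have h1 := (isLittleO_log_rpow_atTop (show 0 < ε / 4 by positivity)).bound
      (show (0 : ℝ) < 1 / 5 by norm_num)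
    filter_upwards [h1, Filter.eventually_ge_atTop 1] with x hx hx1
    rw [Real.norm_of_nonneg (Real.log_nonneg hx1), Real.norm_of_nonneg (by positivity)] at hx
    linarith
  have hB : ∀ᶠ x : ℝ in Filter.atTop, 4 / ε ≤ Real.log x :=
    Real.tendsto_log_atTop.eventually_ge_atTop _
  obtain ⟨X, hX⟩ := Filter.eventually_atTop.1 (hA.and hB)
  refine ⟨max X (max (144 / ε ^ 2) 16), le_trans (by norm_num)
    ((le_max_right _ _).trans (le_max_right _ _)), ?_⟩
  intro d k h1 h2
  have hd144 : 144 / ε ^ 2 ≤ d := ((le_max_left _ _).trans (le_max_right _ _)).trans h1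
  have hd16 : (16 : ℝ) ≤ d := ((le_max_right _ _).trans (le_max_right _ _)).trans h1
  have hd0 : (0 : ℝ) < d := by linarith
  obtain ⟨x, hx⟩ : ∃ x : ℝ, x = k / d := ⟨_, rfl⟩
  have hxC : max X (max (144 / ε ^ 2) 16) ≤ x := by rw [hx, le_div_iff₀ hd0]; exact h2
  have hxX : X ≤ x := (le_max_left _ _).trans hxC
  have hx16 : 16 ≤ x := ((le_max_right _ _).trans (le_max_right _ _)).trans hxC
  have hx144 : 144 / ε ^ 2 ≤ x := ((le_max_left _ _).trans (le_max_right _ _)).trans hxC
  have hx0 : 0 < x := by linarith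
  obtain ⟨hx5, hx4⟩ := hX x hxX
  have hkx : (k : ℝ) = d * x := by rw [hx]; field_simp
  have hlogx1 : 1 ≤ Real.log x := by
    have h3 : Real.exp 1 ≤ x := by
      have := Real.exp_one_lt_d9
      linarith
    rwa [Real.le_log_iff_exp_le hx0]
  have hl2 : Real.log 2 ≤ 0.7 := by
    have := Real.log_two_lt_d9
    linarith
  -- the parameters
  obtain ⟨z, hz⟩ : ∃ z : ℝ, z = x ^ (1 - ε / 4) := ⟨_, rfl⟩
  have hz0 : 0 < z := by rw [hz]; positivity
  have hzx : z * x ^ (ε / 4) = x := by
    rw [hz, ← Real.rpow_add hx0]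
    norm_num
  have hz8 : 8 ≤ z := by
    have e1 : (16 : ℝ) ^ (1 - ε / 4) ≤ z := by
      rw [hz]; exact Real.rpow_le_rpow (by norm_num) hx16 (by linarith)
    have e2 : (16 : ℝ) ^ ((3 : ℝ) / 4) ≤ 16 ^ (1 - ε / 4) :=
      Real.rpow_le_rpow_of_exponent_le (by norm_num) (by linarith)
    have e3 : (16 : ℝ) ^ ((3 : ℝ) / 4) = 8 := by
      rw [show (16 : ℝ) = 2 ^ (4 : ℝ) by norm_num, ← Real.rpow_mul (by norm_num)]
      norm_num
    linarith
  set q : ℕ := ⌊z⌋₊ with hq
  have hqz : (q : ℝ) ≤ z := Nat.floor_le hz0.le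
  have hqz2 : z ≤ 2 * q := by
    have := Nat.lt_floor_add_one z
    rw [← hq] at this
    have : (7 : ℝ) ≤ q := by linarith
    linarith
  have hq4 : 4 ≤ q := by
    have : (4 : ℝ) ≤ q := by linarith
    exact_mod_cast this
  have hq0 : (0 : ℝ) < q := by linarith
  have hzlex : z ≤ x := by
    rw [hz]
    calc x ^ (1 - ε / 4) ≤ x ^ (1 : ℝ) :=
          Real.rpow_le_rpow_of_exponent_le (by linarith) (by linarith)
      _ = x := Real.rpow_one x
  have hlogz : Real.log z = (1 - ε / 4) * Real.log x := by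
    rw [hz, Real.log_rpow hx0]
  have hlogq : (1 - ε / 2) * Real.log x ≤ Real.log q := by
    have e1 : Real.log z ≤ Real.log 2 + Real.log q := by
      rw [← Real.log_mul (by norm_num) hq0.ne']
      exact Real.log_le_log hz0 hqz2
    rw [hlogz] at e1
    have e2 : 4 ≤ ε * Real.log x := by
      rw [div_le_iff₀ hε] at hx4
      linarith
    nlinarith
  have hlogq0 : 0 ≤ Real.log q := Real.log_nonneg (by linarith)
  have hlogqx : Real.log q ≤ Real.log x := Real.log_le_log hq0 (hqz.trans hzlex)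
  -- the exponent
  set m : ℕ := Nat.log 2 d with hm
  have hd0' : d ≠ 0 := by
    intro h
    rw [h] at hd0
    simp at hd0
  have hm2 : 2 ^ m ≤ d := Nat.pow_log_le_self 2 hd0'
  have hm3 : d < 2 ^ (m + 1) := Nat.lt_pow_succ_log_self (by norm_num) d
  have hmsq : ∀ m : ℕ, (m + 1) ^ 2 ≤ 4 * 2 ^ m := by
    intro m
    induction m with
    | zero => norm_num
    | succ m ih =>
      rcases Nat.lt_or_ge m 2 with h | h
      · interval_cases m <;> norm_num
      · have : (m + 1 + 1) ^ 2 ≤ 2 * (m + 1) ^ 2 := by nlinarith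
        calc (m + 1 + 1) ^ 2 ≤ 2 * (m + 1) ^ 2 := this
          _ ≤ 2 * (4 * 2 ^ m) := Nat.mul_le_mul_left _ ih
          _ = 4 * 2 ^ (m + 1) := by ring
  have hmd : ((m : ℝ) + 1) ≤ 2 * Real.sqrt d := by
    have e1 : ((m : ℝ) + 1) ^ 2 ≤ 4 * d := by
      have : (m + 1) ^ 2 ≤ 4 * d := (hmsq m).trans (Nat.mul_le_mul_left _ hm2)
      exact_mod_cast this
    have e2 : (m : ℝ) + 1 ≤ Real.sqrt (4 * d) := Real.le_sqrt_of_sq_le e1
    have e3 : Real.sqrt (4 * (d : ℝ)) = 2 * Real.sqrt d := by
      rw [Real.sqrt_mul (by norm_num), show (4 : ℝ) = 2 ^ 2 by norm_num,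
        Real.sqrt_sq (by norm_num)]
    linarith
  have hsd : 12 / ε ≤ Real.sqrt d := by
    apply Real.le_sqrt_of_sq_le
    rw [div_pow]
    norm_num
    exact hd144
  have hsd2 : Real.sqrt d * Real.sqrt d = d := Real.mul_self_sqrt hd0.le
  have hsd1 : 1 ≤ Real.sqrt d := by
    rw [Real.one_le_sqrt]; linarith
  have hloss : 2 * (m : ℝ) + 4 ≤ (ε / 2) * d := by
    rw [div_le_iff₀ hε] at hsd
    have e1 : 6 * Real.sqrt d ≤ (ε / 2) * d := by nlinarith
    linarith
  obtain ⟨a, ha⟩ : ∃ a : ℕ, a + (2 * m + 2) = d := by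
    refine ⟨d - (2 * m + 2), Nat.sub_add_cancel ?_⟩
    have : 2 * (m : ℝ) + 4 ≤ d := by nlinarith
    have : 2 * m + 4 ≤ d := by exact_mod_cast this
    omega
  have haR : (a : ℝ) + (2 * m + 2) = d := by exact_mod_cast ha
  have ha3 : 3 ≤ a := by
    have : (3 : ℝ) ≤ a := by nlinarith
    exact_mod_cast this
  obtain ⟨G, g1, g2, g3⟩ := vc_lower a (2 * m + 2) q k hq4 ha3 (by
    have e1 : a - 1 ≤ 2 ^ (m + 1) := by omega
    calc (a - 1) ^ 2 ≤ (2 ^ (m + 1)) ^ 2 := Nat.pow_le_pow_left e1 2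
      _ = 2 ^ (2 * m + 2) := by rw [← pow_mul]; congr 1; ring
      _ ≤ 2 * 2 ^ (2 * m + 2) := by omega) (by
    have hale : (a : ℝ) ≤ d := by
      have : (0 : ℝ) ≤ m := Nat.cast_nonneg _
      linarith
    have e1 : (a : ℝ) * Real.log q + 1 ≤ 2 * (d * Real.log x) := by
      have e2 : (a : ℝ) * Real.log q ≤ d * Real.log x := mul_le_mul hale hlogqx hlogq0 hd0.le
      have e3 : 1 ≤ d * Real.log x := by nlinarith
      linarith
    have e4 : 2 * (q : ℝ) * (a * Real.log q + 1) ≤ 2 * z * (2 * (d * Real.log x)) := by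
      apply mul_le_mul (by linarith) e1 _ (by positivity)
      positivity
    have e5 : 1 ≤ z * (d * Real.log x) := by
      have : 1 ≤ d * Real.log x := by nlinarith
      nlinarith
    have e6 : z * (d * (5 * Real.log x)) ≤ z * (d * x ^ (ε / 4)) := by
      apply mul_le_mul_of_nonneg_left _ hz0.le
      exact mul_le_mul_of_nonneg_left hx5 hd0.le
    have e7 : z * (d * x ^ (ε / 4)) = k := by
      calc z * (d * x ^ (ε / 4)) = d * (z * x ^ (ε / 4)) := by ring
        _ = k := by rw [hzx, hkx]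
    linarith)
  rw [ha] at g3
  refine ⟨_, G, g3, g1, g2, ?_⟩
  rw [← hx]
  have e1 : ((a - 2 : ℕ) : ℝ) = a - 2 := by
    rw [Nat.cast_sub (by omega)]; norm_num
  push_cast
  rw [Real.log_pow, e1]
  have e2 : (1 - ε / 2) * d ≤ (a : ℝ) - 2 := by linarith
  calc (1 - ε) * (d * Real.log x) ≤ ((1 - ε / 2) * d) * ((1 - ε / 2) * Real.log x) := by
        have : 0 ≤ d * Real.log x := by positivity
        nlinarith [sq_nonneg ε]
    _ ≤ (a - 2) * Real.log q := by
        apply mul_le_mul e2 hlogq _ (by nlinarith)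
        have : 0 ≤ Real.log x := by linarith
        nlinarith

end Pool.Agent.Y422.RC
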