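import Pool.Agent.Y422.RC.VCUp

set_option autoImplicit false

/-!
# Graphs of VC-dimension at least a small power of `k`

`Has G h m`: every set of at least `m` vertices contains a clique and an independent set with `h`
vertices. Chains of clusters which prefer one colour give `Has G (w h) m'` from `Has G h m`.
-/

namespace Pool.Agent.Y422.RC

open Finset SimpleGraph Pool.Agent.TH458.VC

/-- every set of at least `m` vertices contains homogeneous sets of both colours with `h` elements -/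
def Has {V : Type} (G : SimpleGraph V) (h : ℕ) (m : ℝ) : Prop :=
  ∀ A : Finset V, m ≤ A.card → ∀ c : Bool, ∃ I ⊆ A, I.card = h ∧
    ∀ x ∈ I, ∀ y ∈ I, x ≠ y → ¬ Wr G c x y

open scoped Classical in
theorem bias_step {V : Type} (G : SimpleGraph V) {d h μ : ℕ} {m : ℝ} (hd : VCle G d) (hh : 1 ≤ h)
    (hμ : 4 ≤ μ) (hm : 1 ≤ m) (hH : Has G h m) (c : Bool) (A : Finset V)
    (hA : 4 * h * μ * (88 * h * μ) ^ d * m ≤ A.card) :
    ∃ (e : Bool) (I : Finset V) (A' : Finset V), I ⊆ A ∧ A' ⊆ A ∧ Disjoint I A' ∧ I.card = h ∧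
      (∀ x ∈ I, ∀ y ∈ I, x ≠ y → ¬ Wr G e x y) ∧ (∀ x ∈ I, ∀ y ∈ A', ¬ Wr G e x y) ∧
      ((e = c ∧ (A.card : ℝ) ≤ 2 * μ * A'.card) ∨
        (e = !c ∧ ((μ : ℝ) - 2) * A.card ≤ μ * A'.card)) := by
  have hhR : (1 : ℝ) ≤ h := by exact_mod_cast hh
  have hμR : (4 : ℝ) ≤ μ := by exact_mod_cast hμ
  have h88 : (1 : ℝ) ≤ (88 * h * μ) ^ d := one_le_pow₀ (by nlinarith)
  have hA4 : 4 * (h : ℝ) * μ ≤ A.card := by
    calc 4 * (h : ℝ) * μ = 4 * h * μ * 1 * 1 := by ring
      _ ≤ 4 * h * μ * (88 * h * μ) ^ d * m := by gcongr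
      _ ≤ A.card := hA
  have hA4' : 4 * h * μ ≤ A.card := by exact_mod_cast hA4
  have hApos : (0 : ℝ) < A.card := by nlinarith
  set r : ℕ := A.card / (4 * h * μ) + 1 with hr
  have hr1 : 1 ≤ r := by rw [hr]; exact Nat.le_add_left 1 _
  have hposn : 0 < 4 * h * μ := by positivity
  have hrA : r ≤ A.card := by
    have h1 : A.card / (4 * h * μ) ≤ A.card / 4 := Nat.div_le_div_left (by
      calc 4 = 4 * 1 * 1 := by norm_num
        _ ≤ 4 * h * μ := by gcongr; omega) (by norm_num)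
    have h2 : 4 ≤ A.card := by
      have : 4 * 1 * 1 ≤ 4 * h * μ := by gcongr; omega
      omega
    omega
  obtain ⟨v, hv, W, hWA, hWc, hWd⟩ := cluster G hd A r hr1 hrA
  have hrpos : (0 : ℝ) < r := by exact_mod_cast hr1
  have hlt : A.card < 4 * h * μ * r := by
    rw [hr]
    have := Nat.lt_mul_div_succ A.card hposn
    simpa using this
  have hratio : 22 * (A.card : ℝ) / r ≤ 88 * h * μ := by
    rw [div_le_iff₀ hrpos]
    have : (A.card : ℝ) < 4 * h * μ * r := by exact_mod_cast hlt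
    nlinarith
  have hW1 : (A.card : ℝ) ≤ (88 * h * μ) ^ d * W.card := by
    refine hWc.trans ?_
    gcongr
  have hWbig : m ≤ W.card := by
    have h2 : (88 * (h : ℝ) * μ) ^ d * m ≤ (88 * h * μ) ^ d * W.card := by
      refine le_trans ?_ hW1
      refine le_trans ?_ hA
      have : (1 : ℝ) ≤ 4 * h * μ := by nlinarith
      calc (88 * (h : ℝ) * μ) ^ d * m = 1 * (88 * h * μ) ^ d * m := by ring
        _ ≤ 4 * h * μ * (88 * h * μ) ^ d * m := by gcongr
    exact le_of_mul_le_mul_left h2 (by linarith)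
  -- sizes
  have hbad : ∀ I : Finset V, I ⊆ W → I.card = h →
      ((I ∪ I.biUnion (fun w => diffOn G A v w)).card : ℝ) ≤ A.card / (2 * μ) := by
    intro I hIW hIc
    have h1 : (I ∪ I.biUnion (fun w => diffOn G A v w)).card ≤ h + h * (A.card / (4 * h * μ)) := by
      refine (card_union_le _ _).trans ?_
      rw [hIc]
      refine Nat.add_le_add_left ?_ _
      refine (card_biUnion_le_card_mul I _ (A.card / (4 * h * μ)) ?_).trans (by rw [hIc])
      intro w hw
      have := hWd w (hIW hw)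
      rw [hr] at this
      omega
    have h2 : ((h * (A.card / (4 * h * μ)) : ℕ) : ℝ) ≤ A.card / (4 * μ) := by
      rw [le_div_iff₀ (by positivity)]
      have h3 : h * (A.card / (4 * h * μ)) * (4 * μ) ≤ A.card := by
        calc h * (A.card / (4 * h * μ)) * (4 * μ) = 4 * h * μ * (A.card / (4 * h * μ)) := by ring
          _ ≤ A.card := Nat.mul_div_le _ _
      exact_mod_cast h3
    have h4 : (h : ℝ) ≤ A.card / (4 * μ) := by
      rw [le_div_iff₀ (by positivity)]
      nlinarith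
    have h5 : ((I ∪ I.biUnion (fun w => diffOn G A v w)).card : ℝ) ≤
        h + ((h * (A.card / (4 * h * μ)) : ℕ) : ℝ) := by exact_mod_cast h1
    have h6 : (A.card : ℝ) / (4 * μ) + A.card / (4 * μ) = A.card / (2 * μ) := by
      field_simp; ring
    linarith
  have hfin : ∀ (e : Bool) (I : Finset V), I ⊆ W → I.card = h →
      (∀ x ∈ I, ∀ y ∈ I, x ≠ y → ¬ Wr G e x y) →
      ∃ A' : Finset V, A' ⊆ A ∧ Disjoint I A' ∧ (∀ x ∈ I, ∀ y ∈ A', ¬ Wr G e x y) ∧
        ((A.filter (fun x => (G.Adj v x ↔ e = true))).card : ℝ) - A.card / (2 * μ) ≤ A'.card := by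
    intro e I hIW hIc hI
    refine ⟨(A.filter (fun x => (G.Adj v x ↔ e = true))) \
      (I ∪ I.biUnion (fun w => diffOn G A v w)), sdiff_subset.trans (filter_subset _ _), ?_, ?_, ?_⟩
    · rw [Finset.disjoint_left]
      intro x hx hx2
      rw [mem_sdiff, mem_union, not_or] at hx2
      exact hx2.2.1 hx
    · intro x hx y hy
      rw [mem_sdiff, mem_union, not_or, mem_filter, mem_biUnion] at hy
      obtain ⟨⟨hyA, hyc⟩, -, hy2⟩ := hy
      intro hW
      apply hy2
      refine ⟨x, hx, ?_⟩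
      unfold diffOn
      rw [mem_filter]
      refine ⟨hyA, ?_⟩
      intro h4
      exact hW (h4.symm.trans hyc)
    · have h3 := Finset.le_card_sdiff (I ∪ I.biUnion (fun w => diffOn G A v w))
        (A.filter (fun x => (G.Adj v x ↔ e = true)))
      have h4 : ((A.filter (fun x => (G.Adj v x ↔ e = true))).card : ℝ) ≤
          ((I ∪ I.biUnion (fun w => diffOn G A v w)).card : ℝ) +
          (((A.filter (fun x => (G.Adj v x ↔ e = true))) \
            (I ∪ I.biUnion (fun w => diffOn G A v w))).card : ℝ) := by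
        have : (A.filter (fun x => (G.Adj v x ↔ e = true))).card ≤
          (I ∪ I.biUnion (fun w => diffOn G A v w)).card +
          ((A.filter (fun x => (G.Adj v x ↔ e = true))) \
            (I ∪ I.biUnion (fun w => diffOn G A v w))).card := by omega
        exact_mod_cast this
      have h5 := hbad I hIW hIc
      linarith
  rcases le_or_gt ((A.card : ℝ)) (μ * (A.filter (fun x => (G.Adj v x ↔ c = true))).card) with h1 | h1
  · obtain ⟨I, hIW, hIc, hI⟩ := hH W hWbig c
    obtain ⟨A', hA', hdis, hIA, hcard⟩ := hfin c I hIW hIc hI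
    refine ⟨c, I, A', hIW.trans hWA, hA', hdis, hIc, hI, hIA, Or.inl ⟨rfl, ?_⟩⟩
    have h2 : (A.card : ℝ) / μ ≤ (A.filter (fun x => (G.Adj v x ↔ c = true))).card := by
      rw [div_le_iff₀ (by positivity)]; linarith
    have h3 : (A.card : ℝ) / μ - A.card / (2 * μ) = A.card / (2 * μ) := by
      field_simp; ring
    have h4 : (A.card : ℝ) / (2 * μ) ≤ A'.card := by linarith
    rw [div_le_iff₀ (by positivity)] at h4
    linarith
  · obtain ⟨I, hIW, hIc, hI⟩ := hH W hWbig (!c)
    obtain ⟨A', hA', hdis, hIA, hcard⟩ := hfin (!c) I hIW hIc hI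
    refine ⟨!c, I, A', hIW.trans hWA, hA', hdis, hIc, hI, hIA, Or.inr ⟨rfl, ?_⟩⟩
    have hsplit := Finset.card_filter_add_card_filter_not (s := A) (fun x => (G.Adj v x ↔ c = true))
    have e : (A.filter (fun x => (G.Adj v x ↔ (!c) = true))) =
        A.filter (fun x => ¬ (G.Adj v x ↔ c = true)) := by
      apply Finset.filter_congr
      intro x _
      cases c <;> simp
    rw [e] at hcard
    have hsplit' : ((A.filter (fun x => (G.Adj v x ↔ c = true))).card : ℝ) +
        (A.filter (fun x => ¬ (G.Adj v x ↔ c = true))).card = A.card := by exact_mod_cast hsplit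
    have h3 : (μ : ℝ) * (A.card / (2 * μ)) = A.card / 2 := by
      field_simp
    have hμ0 : (0 : ℝ) < μ := by linarith
    have h4 := mul_le_mul_of_nonneg_left hcard hμ0.le
    have h5 : (μ : ℝ) * ((A.filter (fun x => ¬ (G.Adj v x ↔ c = true))).card : ℝ) =
        μ * A.card - μ * (A.filter (fun x => (G.Adj v x ↔ c = true))).card := by
      rw [← hsplit']; ring
    nlinarith

open scoped Classical in
theorem bias_chain {V : Type} (G : SimpleGraph V) {d h μ : ℕ} {m : ℝ} (hd : VCle G d) (hh : 1 ≤ h)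
    (hμ : 4 ≤ μ) (hm : 1 ≤ m) (hH : Has G h m) (c : Bool) :
    ∀ (w b : ℕ) (A : Finset V), 4 * h * μ * (88 * h * μ) ^ d * m * (2 * μ) ^ w *
        ((μ : ℝ) / (μ - 2)) ^ b ≤ A.card →
      (∃ J ⊆ A, J.card = w * h ∧ ∀ x ∈ J, ∀ y ∈ J, x ≠ y → ¬ Wr G c x y) ∨
      (∃ J ⊆ A, J.card = b * h ∧ ∀ x ∈ J, ∀ y ∈ J, x ≠ y → ¬ Wr G (!c) x y) := by
  have hhR : (1 : ℝ) ≤ h := by exact_mod_cast hh
  have hμR : (4 : ℝ) ≤ μ := by exact_mod_cast hμ
  have hκ : (1 : ℝ) ≤ (μ : ℝ) / (μ - 2) := by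
    rw [le_div_iff₀ (by linarith)]; linarith
  have hB : (0 : ℝ) < 4 * h * μ * (88 * h * μ) ^ d * m := by positivity
  have hunion : ∀ (e : Bool) (I J A' : Finset V) (s : ℕ), Disjoint I A' → J ⊆ A' → I.card = h →
      J.card = s * h → (∀ x ∈ I, ∀ y ∈ I, x ≠ y → ¬ Wr G e x y) →
      (∀ x ∈ J, ∀ y ∈ J, x ≠ y → ¬ Wr G e x y) → (∀ x ∈ I, ∀ y ∈ A', ¬ Wr G e x y) →
      (I ∪ J).card = (s + 1) * h ∧ ∀ x ∈ I ∪ J, ∀ y ∈ I ∪ J, x ≠ y → ¬ Wr G e x y := by
    intro e I J A' s hdis hJ hIc hJc hI hJh hIA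
    refine ⟨?_, ?_⟩
    · rw [card_union_of_disjoint (disjoint_of_subset_right hJ hdis), hIc, hJc]
      ring
    · intro x hx y hy hxy
      rw [mem_union] at hx hy
      rcases hx with hx | hx <;> rcases hy with hy | hy
      · exact hI x hx y hy hxy
      · exact hIA x hx y (hJ hy)
      · rw [Wr.comm]; exact hIA y hy x (hJ hx)
      · exact hJh x hx y hy hxy
  intro w
  induction w with
  | zero =>
    intro b A _
    exact Or.inl ⟨∅, empty_subset _, by simp, by simp⟩
  | succ w ihw =>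
    intro b
    induction b with
    | zero =>
      intro A _
      exact Or.inr ⟨∅, empty_subset _, by simp, by simp⟩
    | succ b ihb =>
      intro A hA
      have hpw : (1 : ℝ) ≤ (2 * μ) ^ (w + 1) := one_le_pow₀ (by linarith)
      have hpb : (1 : ℝ) ≤ ((μ : ℝ) / (μ - 2)) ^ (b + 1) := one_le_pow₀ hκ
      have hA0 : 4 * h * μ * (88 * h * μ) ^ d * m ≤ A.card := by
        calc 4 * (h : ℝ) * μ * (88 * h * μ) ^ d * m =
            4 * h * μ * (88 * h * μ) ^ d * m * 1 * 1 := by ring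
          _ ≤ 4 * h * μ * (88 * h * μ) ^ d * m * (2 * μ) ^ (w + 1) *
            ((μ : ℝ) / (μ - 2)) ^ (b + 1) := by gcongr
          _ ≤ A.card := hA
      obtain ⟨e, I, A', hIA, hA'A, hdis, hIc, hI, hIA', hcase⟩ :=
        bias_step G hd hh hμ hm hH c A hA0
      rcases hcase with ⟨rfl, hc⟩ | ⟨rfl, hc⟩
      · rcases ihw (b + 1) A' (by
          have h1 : 4 * (h : ℝ) * μ * (88 * h * μ) ^ d * m * (2 * μ) ^ w *
              ((μ : ℝ) / (μ - 2)) ^ (b + 1) * (2 * μ) ≤ A'.card * (2 * μ) := by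
            calc _ = 4 * (h : ℝ) * μ * (88 * h * μ) ^ d * m * (2 * μ) ^ (w + 1) *
                  ((μ : ℝ) / (μ - 2)) ^ (b + 1) := by ring
              _ ≤ A.card := hA
              _ ≤ 2 * μ * A'.card := hc
              _ = A'.card * (2 * μ) := by ring
          exact le_of_mul_le_mul_right h1 (by linarith)) with ⟨J, hJ, hJc, hJh⟩ | ⟨J, hJ, hJc, hJh⟩
        · obtain ⟨g1, g2⟩ := hunion e I J A' w hdis hJ hIc hJc hI hJh hIA'
          exact Or.inl ⟨I ∪ J, union_subset hIA (hJ.trans hA'A), g1, g2⟩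
        · exact Or.inr ⟨J, hJ.trans hA'A, hJc, hJh⟩
      · rcases ihb A' (by
          have hμ2 : (0 : ℝ) < (μ : ℝ) - 2 := by linarith
          have h1 : 4 * (h : ℝ) * μ * (88 * h * μ) ^ d * m * (2 * μ) ^ (w + 1) *
              ((μ : ℝ) / (μ - 2)) ^ b * μ ≤ A'.card * μ := by
            calc _ = (4 * (h : ℝ) * μ * (88 * h * μ) ^ d * m * (2 * μ) ^ (w + 1) *
                  ((μ : ℝ) / (μ - 2)) ^ (b + 1)) * (μ - 2) := by
                    rw [pow_succ ((μ : ℝ) / (μ - 2)) b]
                    field_simp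
              _ ≤ A.card * (μ - 2) := mul_le_mul_of_nonneg_right hA hμ2.le
              _ = ((μ : ℝ) - 2) * A.card := by ring
              _ ≤ μ * A'.card := hc
              _ = A'.card * μ := by ring
          exact le_of_mul_le_mul_right h1 (by linarith)) with ⟨J, hJ, hJc, hJh⟩ | ⟨J, hJ, hJc, hJh⟩
        · exact Or.inl ⟨J, hJ.trans hA'A, hJc, hJh⟩
        · obtain ⟨g1, g2⟩ := hunion (!c) I J A' b hdis hJ hIc hJc hI hJh hIA'
          exact Or.inr ⟨I ∪ J, union_subset hIA (hJ.trans hA'A), g1, g2⟩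

theorem no_large {V : Type} (G : SimpleGraph V) {k : ℕ} (hG : G.CliqueFree k)
    (hG' : Gᶜ.CliqueFree k) (c : Bool) (J : Finset V) (hJ : k ≤ J.card) :
    ¬ ∀ x ∈ J, ∀ y ∈ J, x ≠ y → ¬ Wr G c x y := by
  intro h
  obtain ⟨I, hI, hIk⟩ := Finset.exists_subset_card_eq hJ
  cases c with
  | true =>
    refine hG I ⟨?_, hIk⟩
    intro x hx y hy hxy
    have := h x (hI (by exact_mod_cast hx)) y (hI (by exact_mod_cast hy)) hxy
    simpa [Wr] using this
  | false =>
    refine hG' I ⟨?_, hIk⟩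
    intro x hx y hy hxy
    have := h x (hI (by exact_mod_cast hx)) y (hI (by exact_mod_cast hy)) hxy
    rw [compl_adj]
    refine ⟨hxy, ?_⟩
    simpa [Wr] using this

/-- one level -/
theorem level {V : Type} (G : SimpleGraph V) {d h μ k w b : ℕ} {m : ℝ} (hd : VCle G d)
    (hh : 1 ≤ h) (hμ : 4 ≤ μ) (hm : 1 ≤ m) (hG : G.CliqueFree k) (hG' : Gᶜ.CliqueFree k)
    (hb : k ≤ b * h) (hH : Has G h m) :
    Has G (w * h) (4 * h * μ * (88 * h * μ) ^ d * m * (2 * μ) ^ w * ((μ : ℝ) / (μ - 2)) ^ b) := by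
  intro A hA c
  rcases bias_chain G hd hh hμ hm hH c w b A hA with ⟨J, hJ, hJc, hJh⟩ | ⟨J, hJ, hJc, hJh⟩
  · exact ⟨J, hJ, hJc, hJh⟩
  · exact absurd hJh (no_large G hG hG' (!c) J (by rw [hJc]; exact hb))

lemma log_aux {k : ℝ} (hk : 2 ≤ k) : Real.log (440 * k) + 3 ≤ 10 * Real.log (2 * k) := by
  have h0 : (0 : ℝ) < k := by linarith
  have h2 : Real.log 2 ≤ Real.log k := Real.log_le_log (by norm_num) hk
  have h3 := Real.log_two_gt_d9
  have h4 : Real.log 440 ≤ 9 * Real.log 2 := by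
    rw [← Real.log_rpow (by norm_num)]
    exact Real.log_le_log (by norm_num) (by norm_num)
  rw [Real.log_mul (by norm_num) h0.ne', Real.log_mul (by norm_num) h0.ne']
  linarith

/-- all levels -/
theorem levels {V : Type} (G : SimpleGraph V) {d k : ℕ} (hd : VCle G d) (hd1 : 1 ≤ d) (hk : 2 ≤ k)
    (hG : G.CliqueFree k) (hG' : Gᶜ.CliqueFree k) (j : ℕ) :
    (∀ i < j, d ^ i ≤ k) → Has G (d ^ j) (Real.exp (30 * j * d * Real.log (2 * k))) := by
  have hkR : (2 : ℝ) ≤ k := by exact_mod_cast hk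
  have hk0 : (0 : ℝ) < k := by linarith
  have hdR : (1 : ℝ) ≤ d := by exact_mod_cast hd1
  have hd0 : (0 : ℝ) < d := by linarith
  induction j with
  | zero =>
    intro _ A hA c
    simp only [Nat.cast_zero, mul_zero, zero_mul, Real.exp_zero] at hA
    have : 1 ≤ A.card := by exact_mod_cast hA
    obtain ⟨x, hx⟩ := Finset.card_pos.1 this
    refine ⟨{x}, by simpa using hx, by simp, ?_⟩
    intro a ha b hb hab
    rw [mem_singleton] at ha hb
    exact absurd (ha.trans hb.symm) hab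
  | succ j ih =>
    intro hj
    have hH := ih (fun i hi => hj i (by omega))
    have hjk : d ^ j ≤ k := hj j (by omega)
    obtain ⟨h, hhdef⟩ : ∃ h, h = d ^ j := ⟨_, rfl⟩
    rw [← hhdef] at hH hjk
    have hh : 1 ≤ h := by rw [hhdef]; exact Nat.one_le_pow _ _ (by omega)
    have hhR : (1 : ℝ) ≤ h := by exact_mod_cast hh
    have hh0 : (0 : ℝ) < h := by linarith
    have hhk : (h : ℝ) ≤ k := by exact_mod_cast hjk
    set b : ℕ := k / h + 1 with hb
    set μ : ℕ := k / (d * h) + 4 with hμ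
    have hbk : k ≤ b * h := by
      rw [hb]
      have := Nat.lt_mul_div_succ k (show 0 < h by omega)
      nlinarith
    have hb2 : (b : ℝ) * h ≤ 2 * k := by
      have h1 : k / h * h ≤ k := Nat.div_mul_le_self k h
      have h2 : (b : ℝ) * h = ((k / h * h : ℕ) : ℝ) + h := by
        rw [hb]; push_cast; ring
      have h3 : ((k / h * h : ℕ) : ℝ) ≤ k := by exact_mod_cast h1
      linarith
    have hμ4 : 4 ≤ μ := by rw [hμ]; exact Nat.le_add_left 4 _
    have hμR : (4 : ℝ) ≤ μ := by exact_mod_cast hμ4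
    have hμlow : (k : ℝ) ≤ d * h * μ := by
      have h1 := Nat.lt_mul_div_succ k (show 0 < d * h by positivity)
      have h2 : k ≤ d * h * μ := by
        rw [hμ]
        refine h1.le.trans (Nat.mul_le_mul_left _ ?_)
        exact Nat.add_le_add_left (by norm_num) _
      exact_mod_cast h2
    have hμup : (h : ℝ) * μ ≤ 5 * k := by
      have h1 : k / (d * h) * (d * h) ≤ k := Nat.div_mul_le_self k _
      have h2 : k / (d * h) * h ≤ k := by
        refine le_trans (Nat.mul_le_mul_left _ ?_) h1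
        exact Nat.le_mul_of_pos_left _ (by omega)
      have h3 : (h : ℝ) * μ = ((k / (d * h) * h : ℕ) : ℝ) + 4 * h := by
        rw [hμ]; push_cast; ring
      have h4 : ((k / (d * h) * h : ℕ) : ℝ) ≤ k := by exact_mod_cast h2
      linarith
    have hμk : (μ : ℝ) ≤ 5 * k := by
      refine le_trans ?_ hμup
      nlinarith
    have hm : (1 : ℝ) ≤ Real.exp (30 * j * d * Real.log (2 * k)) := by
      apply Real.one_le_exp
      have : 0 ≤ Real.log (2 * k) := Real.log_nonneg (by linarith)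
      positivity
    have hlev := level G (w := d) hd hh hμ4 hm hG hG' hbk hH
    have hpow : d ^ (j + 1) = d * h := by rw [hhdef, pow_succ]; ring
    rw [hpow]
    intro A hA c
    refine hlev A (le_trans ?_ hA) c
    -- the numerical inequality
    have hκ : ((μ : ℝ) / (μ - 2)) ^ b ≤ Real.exp (8 * d) := by
      have e1 : (μ : ℝ) / (μ - 2) ≤ Real.exp (4 / μ) := by
        have hne : (μ : ℝ) - 2 ≠ 0 := by
          have : (0 : ℝ) < (μ : ℝ) - 2 := by linarith
          exact this.ne'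
        have e2 : (μ : ℝ) / (μ - 2) = 2 / (μ - 2) + 1 := by
          rw [div_add_one hne]; congr 1; ring
        have e3 : 2 / ((μ : ℝ) - 2) ≤ 4 / μ := by
          rw [div_le_div_iff₀ (by linarith) (by linarith)]
          linarith
        have e4 := Real.add_one_le_exp (4 / (μ : ℝ))
        linarith
      have e5 : (0 : ℝ) ≤ (μ : ℝ) / (μ - 2) := div_nonneg (by linarith) (by linarith)
      refine (pow_le_pow_left₀ e5 e1 b).trans ?_
      rw [← Real.exp_nat_mul, Real.exp_le_exp]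
      have e6 : (b : ℝ) ≤ 2 * d * μ := by
        have e7 : (b : ℝ) * h ≤ (2 * d * μ) * h := by nlinarith
        exact le_of_mul_le_mul_right e7 hh0
      rw [mul_div_assoc']
      rw [div_le_iff₀ (by linarith)]
      nlinarith
    have hexp1 : ∀ x : ℝ, 0 < x → x = Real.exp (Real.log x) := fun x hx => (Real.exp_log hx).symm
    have hL : Real.log (440 * k) + 3 ≤ 10 * Real.log (2 * k) := log_aux hkR
    have h440 : (1 : ℝ) ≤ 440 * k := by linarith
    calc 4 * (h : ℝ) * μ * (88 * h * μ) ^ d * Real.exp (30 * j * d * Real.log (2 * k)) *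
          (2 * μ) ^ d * ((μ : ℝ) / (μ - 2)) ^ b
        ≤ (440 * k) * (440 * k) ^ d * Real.exp (30 * j * d * Real.log (2 * k)) *
          (440 * k) ^ d * Real.exp (8 * d) := by
          have f1 : 4 * (h : ℝ) * μ ≤ 440 * k := by nlinarith
          have f2 : 88 * (h : ℝ) * μ ≤ 440 * k := by nlinarith
          have f3 : 2 * (μ : ℝ) ≤ 440 * k := by nlinarith
          have hκ0 : 0 ≤ ((μ : ℝ) / (μ - 2)) ^ b :=
            pow_nonneg (div_nonneg (by linarith) (by linarith)) _
          gcongr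
      _ = Real.exp (Real.log (440 * k) + d * Real.log (440 * k) +
            30 * j * d * Real.log (2 * k) + d * Real.log (440 * k) + 8 * d) := by
          rw [Real.exp_add, Real.exp_add, Real.exp_add, Real.exp_add, Real.exp_nat_mul,
            Real.exp_log (by positivity)]
      _ ≤ Real.exp (30 * (j + 1 : ℕ) * d * Real.log (2 * k)) := by
          rw [Real.exp_le_exp]
          push_cast
          have g1 : 0 ≤ Real.log (440 * k) := Real.log_nonneg h440
          have g2 : Real.log (440 * k) ≤ d * Real.log (440 * k) := by nlinarith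
          have g3 : 3 * (d : ℝ) * (Real.log (440 * k) + 3) ≤ 3 * d * (10 * Real.log (2 * k)) :=
            mul_le_mul_of_nonneg_left hL (by positivity)
          nlinarith

/-- **Upper bound for VC-dimension at least a power of `k`.** -/
theorem vc_upper_multi {n : ℕ} (G : SimpleGraph (Fin n)) {d k J : ℕ} (hd : VCle G d)
    (hd1 : 1 ≤ d) (hk : 2 ≤ k) (hJ : k ≤ d ^ (J + 1)) (hG : G.CliqueFree k)
    (hG' : Gᶜ.CliqueFree k) :
    Real.log n ≤ 30 * (J + 1) * d * Real.log (2 * k) := by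
  have hkR : (2 : ℝ) ≤ k := by exact_mod_cast hk
  have hk0 : (0 : ℝ) < k := by linarith
  have hdR : (1 : ℝ) ≤ d := by exact_mod_cast hd1
  have hd0 : (0 : ℝ) < d := by linarith
  have hl2k : 0 ≤ Real.log (2 * k) := Real.log_nonneg (by linarith)
  rcases Nat.eq_zero_or_pos n with hn | hn
  · subst hn
    simp only [Nat.cast_zero, Real.log_zero]
    positivity
  -- the least exponent
  obtain ⟨I, hIJ, hI, hmin⟩ : ∃ I ≤ J, k ≤ d ^ (I + 1) ∧ ∀ i < I + 1, d ^ i ≤ k := by
    classical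
    have hex : ∃ i, k ≤ d ^ (i + 1) := ⟨J, hJ⟩
    refine ⟨Nat.find hex, Nat.find_min' hex hJ, Nat.find_spec hex, ?_⟩
    intro i hi
    rcases Nat.eq_zero_or_pos i with h0 | h0
    · subst h0
      simp; omega
    · have := Nat.find_min hex (m := i - 1) (by omega)
      rw [not_le, Nat.sub_add_cancel h0] at this
      exact this.le
  have hH := levels G hd hd1 hk hG hG' I (fun i hi => hmin i (by omega))
  obtain ⟨h, hhdef⟩ : ∃ h, h = d ^ I := ⟨_, rfl⟩
  have hhk : h ≤ k := by rw [hhdef]; exact hmin I (by omega)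
  rw [← hhdef] at hH
  have hh : 1 ≤ h := by rw [hhdef]; exact Nat.one_le_pow _ _ (by omega)
  have hhkR : (h : ℝ) ≤ k := by exact_mod_cast hhk
  have hhR : (1 : ℝ) ≤ h := by exact_mod_cast hh
  have hm : (1 : ℝ) ≤ Real.exp (30 * I * d * Real.log (2 * k)) := by
    apply Real.one_le_exp
    positivity
  have hdh : k ≤ d * h := by
    rw [hhdef]
    calc k ≤ d ^ (I + 1) := hI
      _ = d * d ^ I := by rw [pow_succ]; ring
  have hn0 : (0 : ℝ) < n := by exact_mod_cast hn
  have hlt : (n : ℝ) < 4 * h * (4 : ℕ) * (88 * h * (4 : ℕ)) ^ d *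
      Real.exp (30 * I * d * Real.log (2 * k)) * (2 * (4 : ℕ)) ^ d *
      (((4 : ℕ) : ℝ) / ((4 : ℕ) - 2)) ^ d := by
    by_contra hcon
    push Not at hcon
    rcases bias_chain G hd hh (le_refl 4) hm hH true d d univ (by
      rw [card_univ, Fintype.card_fin]; exact hcon) with ⟨J, hJ, hJc, hJh⟩ | ⟨J, hJ, hJc, hJh⟩
    · exact no_large G hG hG' true J (by rw [hJc]; exact hdh) hJh
    · exact no_large G hG hG' (!true) J (by rw [hJc]; exact hdh) hJh
  have h440 : (1 : ℝ) ≤ 440 * k := by linarith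
  have hle : (n : ℝ) ≤ (440 * k) * (440 * k) ^ d * Real.exp (30 * I * d * Real.log (2 * k)) *
      Real.exp (3 * d) := by
    refine hlt.le.trans ?_
    have e16 : (2 * ((4 : ℕ) : ℝ)) ^ d * (((4 : ℕ) : ℝ) / ((4 : ℕ) - 2)) ^ d ≤ Real.exp (3 * d) := by
      rw [← mul_pow, mul_comm 3 (d : ℝ), Real.exp_nat_mul]
      apply pow_le_pow_left₀ (by norm_num)
      have h1 := Real.exp_one_gt_d9
      have h2 : Real.exp 3 = Real.exp 1 ^ 3 := by rw [← Real.exp_nat_mul]; norm_num
      rw [h2]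
      have h3 : (2.7 : ℝ) ^ 3 ≤ Real.exp 1 ^ 3 := pow_le_pow_left₀ (by norm_num) (by linarith) 3
      norm_num at h3 ⊢
      linarith
    rw [mul_assoc _ ((2 * ((4 : ℕ) : ℝ)) ^ d)]
    have f1 : 4 * (h : ℝ) * (4 : ℕ) ≤ 440 * k := by push_cast; nlinarith
    have f2 : 88 * (h : ℝ) * (4 : ℕ) ≤ 440 * k := by push_cast; nlinarith
    gcongr
  refine (Real.log_le_log hn0 hle).trans ?_
  rw [Real.log_mul (by positivity) (by positivity), Real.log_mul (by positivity) (by positivity),
    Real.log_mul (by positivity) (by positivity), Real.log_exp, Real.log_exp, Real.log_pow]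
  have hL : Real.log (440 * k) + 3 ≤ 10 * Real.log (2 * k) := log_aux hkR
  have g1 : 0 ≤ Real.log (440 * k) := Real.log_nonneg h440
  have g2 : Real.log (440 * k) ≤ d * Real.log (440 * k) := by nlinarith
  have hIJR : (I : ℝ) ≤ J := by exact_mod_cast hIJ
  have g3 : 30 * (I : ℝ) * d * Real.log (2 * k) ≤ 30 * J * d * Real.log (2 * k) := by gcongr
  have g4 : 2 * (d : ℝ) * (Real.log (440 * k) + 3) ≤ 2 * d * (10 * Real.log (2 * k)) :=
    mul_le_mul_of_nonneg_left hL (by positivity)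
  have g5 : 0 ≤ (d : ℝ) * Real.log (2 * k) := by positivity
  nlinarith

end Pool.Agent.Y422.RC
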