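import Pool.Agent.Y422.RC.VCAsy
import Pool.Agent.Y422.RC.VCMulti

set_option autoImplicit false

/-!
# The diagonal Ramsey number of graphs of VC-dimension at most `d`
-/

namespace Pool.Agent.Y422.RC

open Finset Pool.Agent.TH458.VC Filter Topology

/-- some graph on `n` vertices has VC-dimension at most `d` and no homogeneous set of size `k` -/
def Good (d k n : ℕ) : Prop :=
  ∃ G : SimpleGraph (Fin n), VCle G d ∧ G.CliqueFree k ∧ Gᶜ.CliqueFree k

/-- the least `n` such that every graph on `n` vertices of VC-dimension at most `d` has a clique or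
an independent set of size `k` -/
noncomputable def RVC (d k : ℕ) : ℕ := sInf {n : ℕ | ¬ Good d k n}

theorem good_mono {d k n m : ℕ} (h : n ≤ m) (hg : Good d k m) : Good d k n := by
  obtain ⟨G, h1, h2, h3⟩ := hg
  let e : Fin n ↪ Fin m := Fin.castLEEmb h
  refine ⟨G.comap e, ?_, ?_, ?_⟩
  · intro S hS
    have h4 := h1 (S.map e) (by
      classical
      intro T hT
      obtain ⟨v, hv⟩ := hS (S.filter (fun x => e x ∈ T)) (filter_subset _ _)
      refine ⟨e v, ?_⟩
      intro x hx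
      rw [Finset.mem_map] at hx
      obtain ⟨y, hy, rfl⟩ := hx
      have h5 := hv y hy
      rw [SimpleGraph.comap_adj, mem_filter] at h5
      rw [h5]
      simp [hy])
    rwa [card_map] at h4
  · intro s hs
    refine h2 (s.map e) ?_
    rw [SimpleGraph.isNClique_iff] at hs ⊢
    refine ⟨?_, by rw [card_map]; exact hs.2⟩
    intro x hx y hy hxy
    rw [mem_coe, Finset.mem_map] at hx hy
    obtain ⟨x, hx, rfl⟩ := hx
    obtain ⟨y, hy, rfl⟩ := hy
    exact hs.1 hx hy (fun h => hxy (by rw [h]))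
  · intro s hs
    refine h3 (s.map e) ?_
    rw [SimpleGraph.isNClique_iff] at hs ⊢
    refine ⟨?_, by rw [card_map]; exact hs.2⟩
    intro x hx y hy hxy
    rw [mem_coe, Finset.mem_map] at hx hy
    obtain ⟨x, hx, rfl⟩ := hx
    obtain ⟨y, hy, rfl⟩ := hy
    have h4 := hs.1 hx hy (fun h => hxy (by rw [h]))
    rw [SimpleGraph.compl_adj] at h4 ⊢
    exact ⟨hxy, h4.2⟩

theorem not_good (d k : ℕ) : ¬ Good d k ((k + k).choose k) := by
  rintro ⟨G, -, h2, h3⟩
  obtain ⟨I, -, hI, hIh⟩ := ramsey G true k k h2 h3 univ (by rw [card_univ, Fintype.card_fin])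
  exact no_large G h2 h3 true I (by rw [hI]) hIh

theorem not_good_RVC (d k : ℕ) : ¬ Good d k (RVC d k) :=
  Nat.sInf_mem (s := {n : ℕ | ¬ Good d k n}) ⟨_, not_good d k⟩

theorem good_of_lt {d k n : ℕ} (h : n < RVC d k) : Good d k n := by
  by_contra hc
  exact absurd (Nat.sInf_le (s := {n : ℕ | ¬ Good d k n}) hc) (not_le.2 h)

theorem lt_of_good {d k n : ℕ} (h : Good d k n) : n < RVC d k := by
  by_contra hc
  push Not at hc
  exact not_good_RVC d k (good_mono hc h)

theorem log_le_of_good {d k n : ℕ} (h : Good d k n) : Real.log n ≤ Real.log (RVC d k) := by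
  have h1 := lt_of_good h
  rcases Nat.eq_zero_or_pos n with h0 | h0
  · subst h0
    simp only [Nat.cast_zero, Real.log_zero]
    exact Real.log_natCast_nonneg _
  · exact Real.log_le_log (by exact_mod_cast h0) (by exact_mod_cast h1.le)

theorem log_RVC_le {d k : ℕ} {U : ℝ} (hU : 0 ≤ U)
    (h : ∀ (n : ℕ) (G : SimpleGraph (Fin n)), VCle G d → G.CliqueFree k → Gᶜ.CliqueFree k →
      Real.log n ≤ U) : Real.log (RVC d k) ≤ U + Real.log 2 := by
  have hl2 : 0 ≤ Real.log 2 := Real.log_nonneg (by norm_num)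
  rcases Nat.lt_or_ge (RVC d k) 2 with h1 | h1
  · have : Real.log (RVC d k) ≤ 0 := by
      apply Real.log_nonpos (Nat.cast_nonneg _)
      have : RVC d k ≤ 1 := by omega
      exact_mod_cast this
    linarith
  · obtain ⟨G, g1, g2, g3⟩ := good_of_lt (show RVC d k - 1 < RVC d k by omega)
    have h2 := h _ G g1 g2 g3
    have h3 : (0 : ℝ) < ((RVC d k - 1 : ℕ) : ℝ) := by
      have : 0 < RVC d k - 1 := by omega
      exact_mod_cast this
    have h4 : ((RVC d k : ℕ) : ℝ) ≤ 2 * ((RVC d k - 1 : ℕ) : ℝ) := by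
      have : RVC d k ≤ 2 * (RVC d k - 1) := by omega
      exact_mod_cast this
    have h5 : (0 : ℝ) < (RVC d k : ℝ) := by
      have : 0 < RVC d k := by omega
      exact_mod_cast this
    calc Real.log (RVC d k) ≤ Real.log (2 * ((RVC d k - 1 : ℕ) : ℝ)) := Real.log_le_log h5 h4
      _ = Real.log 2 + Real.log ((RVC d k - 1 : ℕ) : ℝ) := Real.log_mul (by norm_num) h3.ne'
      _ ≤ U + Real.log 2 := by linarith

/-- **Sharp form.** -/
theorem vc_sharp (ε : ℝ) (hε : 0 < ε) : ∃ C : ℝ, 1 ≤ C ∧ ∀ d k : ℕ, 2 ≤ k →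
    C * Real.sqrt (k / Real.log k) ≤ d → C * d ≤ k →
    |Real.log (RVC d k) - d * Real.log (k / d)| ≤ ε * (d * Real.log (k / d)) := by
  obtain ⟨C1, hC1, hup⟩ := vc_upper_asy (min (ε / 2) 1) (by positivity) (min_le_right _ _)
  obtain ⟨C2, hC2, hlo⟩ := vc_lower_asy (min ε 1) (by positivity) (min_le_right _ _)
  refine ⟨max (max C1 C2) (max 3 (2 / ε)), le_trans hC1 ((le_max_left _ _).trans (le_max_left _ _)),
    ?_⟩
  intro d k hk h1 h2
  have hk1 : (2 : ℝ) ≤ k := by exact_mod_cast hk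
  have hlogk : 0 < Real.log k := Real.log_pos (by linarith)
  have hlogk2 : Real.log k ≤ k := by
    have := Real.log_le_sub_one_of_pos (show (0 : ℝ) < k by linarith)
    linarith
  have hsk : 1 ≤ Real.sqrt (k / Real.log k) := by
    rw [Real.one_le_sqrt, le_div_iff₀ hlogk]; linarith
  have hsk0 : 0 ≤ Real.sqrt (k / Real.log k) := by linarith
  have hdn : (0 : ℝ) ≤ d := Nat.cast_nonneg _
  have hCm : ∀ c, c ≤ max (max C1 C2) (max 3 (2 / ε)) →
      c * Real.sqrt (k / Real.log k) ≤ d ∧ c * d ≤ k :=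
    fun c hc => ⟨(mul_le_mul_of_nonneg_right hc hsk0).trans h1,
      (mul_le_mul_of_nonneg_right hc hdn).trans h2⟩
  obtain ⟨a1, a2⟩ := hCm C1 ((le_max_left _ _).trans (le_max_left _ _))
  obtain ⟨b1, b2⟩ := hCm C2 ((le_max_right _ _).trans (le_max_left _ _))
  obtain ⟨c1, c2⟩ := hCm 3 ((le_max_left _ _).trans (le_max_right _ _))
  obtain ⟨e1, e2⟩ := hCm (2 / ε) ((le_max_right _ _).trans (le_max_right _ _))
  have hd3 : (3 : ℝ) ≤ d := by nlinarith
  have hd0 : (0 : ℝ) < d := by linarith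
  have hdε : 2 / ε ≤ d := by
    have h3 : 0 ≤ 2 / ε := by positivity
    nlinarith
  have hC2d : C2 ≤ d := by nlinarith
  have hx3 : (3 : ℝ) ≤ k / d := by rw [le_div_iff₀ hd0]; exact c2
  have hlog : 1 ≤ Real.log ((k : ℝ) / d) := by
    rw [Real.le_log_iff_exp_le (by linarith)]
    have := Real.exp_one_lt_d9
    linarith
  obtain ⟨n, G, g1, g2, g3, g4⟩ := hlo d k hC2d b2
  have hlower := g4.trans (log_le_of_good ⟨G, g1, g2, g3⟩)
  have hM : 0 ≤ (d : ℝ) * Real.log (k / d) := by positivity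
  have hupper := log_RVC_le (d := d) (k := k) (U := (1 + ε / 2) * (d * Real.log (k / d)))
    (by positivity) (fun n G h4 h5 h6 => (hup d k hk a1 a2 n G h4 h5 h6).trans (by
      apply mul_le_mul_of_nonneg_right _ hM
      have := min_le_left (ε / 2) 1
      linarith))
  have hl2 : Real.log 2 ≤ 1 := by
    have := Real.log_two_lt_d9
    linarith
  have h8 : 1 ≤ ε / 2 * (d * Real.log (k / d)) := by
    rw [div_le_iff₀ hε] at hdε
    nlinarith
  have hmin : min ε 1 * (d * Real.log (k / d)) ≤ ε * (d * Real.log (k / d)) :=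
    mul_le_mul_of_nonneg_right (min_le_left _ _) hM
  rw [abs_le]
  constructor <;> nlinarith

/-- **Limit form.** -/
theorem vc_limit (d : ℕ → ℕ)
    (h1 : Tendsto (fun k : ℕ => (d k : ℝ) / Real.sqrt (k / Real.log k)) atTop atTop)
    (h2 : Tendsto (fun k => (d k : ℝ) / k) atTop (𝓝 0)) :
    Tendsto (fun k => Real.log (RVC (d k) k) / (d k * Real.log (k / d k))) atTop (𝓝 1) := by
  rw [Metric.tendsto_atTop]
  intro ε hε
  obtain ⟨C, hC, h⟩ := vc_sharp (ε / 2) (by positivity)
  have hC0 : 0 < C := by linarith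
  have e1 := h1.eventually_ge_atTop C
  have e2 : ∀ᶠ k : ℕ in atTop, (d k : ℝ) / k ≤ 1 / max C 3 :=
    (h2.eventually_lt_const (show (0 : ℝ) < 1 / max C 3 by positivity)).mono fun _ h => h.le
  obtain ⟨K, hK⟩ := eventually_atTop.1 ((e1.and e2).and (eventually_ge_atTop 2))
  refine ⟨K, fun k hk => ?_⟩
  obtain ⟨⟨g1, g2⟩, g3⟩ := hK k hk
  have hk2 : (2 : ℝ) ≤ k := by exact_mod_cast g3
  have hk0 : (0 : ℝ) < k := by linarith
  have hlogk : 0 < Real.log k := Real.log_pos (by linarith)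
  have hsk : 0 < Real.sqrt (k / Real.log k) := Real.sqrt_pos.2 (by positivity)
  rw [le_div_iff₀ hsk] at g1
  have hd0 : (0 : ℝ) < d k := lt_of_lt_of_le (by positivity) g1
  have g2' : max C 3 * d k ≤ k := by
    rw [div_le_div_iff₀ hk0 (by positivity)] at g2
    linarith
  have g4 : C * d k ≤ k := (mul_le_mul_of_nonneg_right (le_max_left _ _) hd0.le).trans g2'
  have g5 : 3 * (d k : ℝ) ≤ k := (mul_le_mul_of_nonneg_right (le_max_right _ _) hd0.le).trans g2'
  have g6 := h (d k) k g3 g1 g4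
  have hlog : 1 ≤ Real.log ((k : ℝ) / d k) := by
    have hx3 : (3 : ℝ) ≤ k / d k := by rw [le_div_iff₀ hd0]; exact g5
    rw [Real.le_log_iff_exp_le (by linarith)]
    have := Real.exp_one_lt_d9
    linarith
  have hM : 0 < (d k : ℝ) * Real.log (k / d k) := by positivity
  rw [Real.dist_eq]
  have e3 : Real.log (RVC (d k) k) / (d k * Real.log (k / d k)) - 1 =
      (Real.log (RVC (d k) k) - d k * Real.log (k / d k)) / (d k * Real.log (k / d k)) := by
    field_simp
  rw [e3, abs_div, abs_of_pos hM, div_lt_iff₀ hM]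
  have : ε / 2 * (d k * Real.log (k / d k)) < ε * (d k * Real.log (k / d k)) := by nlinarith
  linarith

/-- **Order of magnitude for VC-dimension at least a power of `k`.** -/
theorem vc_order (ε : ℝ) (hε : 0 < ε) : ∃ C : ℝ, 1 ≤ C ∧ ∀ d k : ℕ, 1 ≤ k →
    (k : ℝ) ^ ε ≤ d → C * d ≤ k →
    (1 / 2) * (d * Real.log (k / d)) ≤ Real.log (RVC d k) ∧
    Real.log (RVC d k) ≤ C * (d * Real.log (k / d)) := by
  obtain ⟨C1, hC1, hup⟩ := vc_upper_asy 1 (by norm_num) (by norm_num)
  obtain ⟨C2, hC2, hlo⟩ := vc_lower_asy (1 / 2) (by norm_num) (by norm_num)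
  set J : ℕ := ⌈1 / ε⌉₊ with hJ
  have hJR : 1 / ε ≤ J := Nat.le_ceil _
  refine ⟨max (max (C1 ^ 2) C2) (max (max 3 (C2 ^ (1 / ε))) (120 * (J + 1) + 1)), ?_, ?_⟩
  · exact le_trans hC2 ((le_max_right _ _).trans (le_max_left _ _))
  intro d k hk h1 h2
  set C := max (max (C1 ^ 2) C2) (max (max 3 (C2 ^ (1 / ε))) (120 * (J + 1) + 1)) with hC
  have q1 : C1 ^ 2 ≤ C := (le_max_left _ _).trans (le_max_left _ _)
  have q2 : C2 ≤ C := (le_max_right _ _).trans (le_max_left _ _)
  have q3 : 3 ≤ C := (le_max_left _ _).trans ((le_max_left _ _).trans (le_max_right _ _))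
  have q4 : C2 ^ (1 / ε) ≤ C := (le_max_right _ _).trans ((le_max_left _ _).trans (le_max_right _ _))
  have q5 : 120 * ((J : ℝ) + 1) + 1 ≤ C := (le_max_right _ _).trans (le_max_right _ _)
  have hk1 : (1 : ℝ) ≤ k := by exact_mod_cast hk
  have hk0 : (0 : ℝ) < k := by linarith
  have hd1 : (1 : ℝ) ≤ d := (Real.one_le_rpow hk1 hε.le).trans h1
  have hd0 : (0 : ℝ) < d := by linarith
  have hd1' : 1 ≤ d := by exact_mod_cast hd1
  have hCk : C ≤ k := by nlinarith
  have hk3 : (3 : ℝ) ≤ k := by linarith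
  have hk2 : 2 ≤ k := by
    have : (2 : ℝ) ≤ k := by linarith
    exact_mod_cast this
  have hC2d : C2 ≤ d := by
    have e1 : (C2 ^ (1 / ε)) ^ ε ≤ (k : ℝ) ^ ε :=
      Real.rpow_le_rpow (by positivity) (q4.trans hCk) hε.le
    rw [← Real.rpow_mul (by linarith), one_div_mul_cancel hε.ne', Real.rpow_one] at e1
    exact e1.trans h1
  have hxC : C ≤ (k : ℝ) / d := by rw [le_div_iff₀ hd0]; exact h2
  have hx3 : (3 : ℝ) ≤ (k : ℝ) / d := q3.trans hxC
  have hlog : 1 ≤ Real.log ((k : ℝ) / d) := by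
    rw [Real.le_log_iff_exp_le (by linarith)]
    have := Real.exp_one_lt_d9
    linarith
  have hM : 0 ≤ (d : ℝ) * Real.log (k / d) := by positivity
  have hM1 : 1 ≤ (d : ℝ) * Real.log (k / d) := by nlinarith
  have hl2 : Real.log 2 ≤ 1 := by
    have := Real.log_two_lt_d9
    linarith
  constructor
  · obtain ⟨n, G, g1, g2, g3, g4⟩ := hlo d k hC2d ((mul_le_mul_of_nonneg_right q2 hd0.le).trans h2)
    have := g4.trans (log_le_of_good ⟨G, g1, g2, g3⟩)
    linarith
  · rcases le_or_gt (C1 * Real.sqrt k) d with hc | hc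
    · have hC1k : C1 * d ≤ k := by
        have : C1 ≤ C := le_trans (by nlinarith) q1
        exact (mul_le_mul_of_nonneg_right this hd0.le).trans h2
      have hc' : C1 * Real.sqrt (k / Real.log k) ≤ d := by
        refine le_trans ?_ hc
        apply mul_le_mul_of_nonneg_left _ (by linarith)
        apply Real.sqrt_le_sqrt
        apply div_le_self hk0.le
        rw [Real.le_log_iff_exp_le hk0]
        have := Real.exp_one_lt_d9
        linarith
      have := log_RVC_le (d := d) (k := k) (U := (1 + 1) * (d * Real.log (k / d))) (by positivity)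
        (fun n G h4 h5 h6 => hup d k hk2 hc' hC1k n G h4 h5 h6)
      nlinarith
    · -- few: use the levels
      have hJk : k ≤ d ^ (J + 1) := by
        have e1 : (k : ℝ) ≤ (d : ℝ) ^ (J + 1) := by
          calc (k : ℝ) = ((k : ℝ) ^ ε) ^ (1 / ε) := by
                rw [← Real.rpow_mul hk0.le, mul_one_div_cancel hε.ne', Real.rpow_one]
            _ ≤ (d : ℝ) ^ (1 / ε) := Real.rpow_le_rpow (by positivity) h1 (by positivity)
            _ ≤ (d : ℝ) ^ ((J + 1 : ℕ) : ℝ) := by
                apply Real.rpow_le_rpow_of_exponent_le hd1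
                push_cast; linarith
            _ = (d : ℝ) ^ (J + 1) := Real.rpow_natCast _ _
        exact_mod_cast e1
      have hl2k : 0 ≤ Real.log (2 * k) := Real.log_nonneg (by linarith)
      have := log_RVC_le (d := d) (k := k) (U := 30 * (J + 1) * d * Real.log (2 * k)) (by positivity)
        (fun n G h4 h5 h6 => vc_upper_multi G h4 hd1' hk2 hJk h5 h6)
      -- compare the logarithms
      have hs0 : 0 < Real.sqrt k := Real.sqrt_pos.2 hk0
      have hss : Real.sqrt k * Real.sqrt k = k := Real.mul_self_sqrt hk0.le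
      have e2 : Real.log (2 * k) ≤ 4 * Real.log (k / d) := by
        have f1 : Real.sqrt k ≤ C1 * (k / d) := by
          rw [mul_div_assoc', le_div_iff₀ hd0]
          nlinarith
        have f2 : (k : ℝ) ≤ ((k : ℝ) / d) ^ 3 := by
          have f3 : C1 ^ 2 ≤ k / d := q1.trans hxC
          have f4 : (k : ℝ) ≤ C1 ^ 2 * (k / d) ^ 2 := by
            calc (k : ℝ) = Real.sqrt k * Real.sqrt k := hss.symm
              _ ≤ (C1 * (k / d)) * (C1 * (k / d)) := by
                apply mul_self_le_mul_self hs0.le f1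
              _ = C1 ^ 2 * (k / d) ^ 2 := by ring
          refine f4.trans ?_
          calc C1 ^ 2 * ((k : ℝ) / d) ^ 2 ≤ ((k : ℝ) / d) * ((k : ℝ) / d) ^ 2 := by gcongr
            _ = ((k : ℝ) / d) ^ 3 := by ring
        have f5 : (2 * k : ℝ) ≤ ((k : ℝ) / d) ^ 4 := by
          have : (k : ℝ) * 2 ≤ ((k : ℝ) / d) ^ 3 * ((k : ℝ) / d) := by
            apply mul_le_mul f2 (by linarith) (by norm_num) (by positivity)
          calc (2 * k : ℝ) = k * 2 := by ring
            _ ≤ ((k : ℝ) / d) ^ 3 * ((k : ℝ) / d) := this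
            _ = ((k : ℝ) / d) ^ 4 := by ring
        calc Real.log (2 * k) ≤ Real.log (((k : ℝ) / d) ^ 4) := Real.log_le_log (by positivity) f5
          _ = 4 * Real.log (k / d) := by rw [Real.log_pow]; norm_num
      have e3 : 30 * ((J : ℝ) + 1) * d * Real.log (2 * k) ≤
          30 * (J + 1) * d * (4 * Real.log (k / d)) := by gcongr
      have e4 : (120 * ((J : ℝ) + 1) + 1) * (d * Real.log (k / d)) ≤ C * (d * Real.log (k / d)) :=
        mul_le_mul_of_nonneg_right q5 hM
      nlinarith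

end Pool.Agent.Y422.RC
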