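import Pool.Agent.TH458.VC.Fin

set_option autoImplicit false

/-!
# Upper bound for the Ramsey numbers of graphs of bounded VC-dimension, with the right constant

Inside a set `A` of vertices the packing lemma of Haussler gives a cluster of at least
`|A| / (88 h) ^ d` vertices whose neighbourhoods differ in at most `|A| / (4 h)` points of `A`. The cluster
contains a clique and an independent set with `h` vertices, and one of them is homogeneous to at
least `|A| / 8` vertices of `A`.
-/

namespace Pool.Agent.Y422.RC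

open Finset SimpleGraph Pool.Agent.TH458.VC

open scoped Classical in
/-- one step -/
theorem vc_step {V : Type} (G : SimpleGraph V) {d h k : ℕ} (hd : VCle G d) (hh : 1 ≤ h)
    (hG : G.CliqueFree k) (hG' : Gᶜ.CliqueFree k) (A : Finset V)
    (hA : 8 * h * (88 * h) ^ d * (h + k).choose h ≤ A.card) :
    ∃ (c : Bool) (I : Finset V) (A' : Finset V), I ⊆ A ∧ A' ⊆ A ∧ Disjoint I A' ∧ I.card = h ∧
      A.card ≤ 8 * A'.card ∧ (∀ x ∈ I, ∀ y ∈ I, x ≠ y → ¬ Wr G c x y) ∧
      (∀ x ∈ I, ∀ y ∈ A', ¬ Wr G c x y) := by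
  have hch : 1 ≤ (h + k).choose h := Nat.choose_pos (by omega)
  have h88 : 1 ≤ (88 * h) ^ d := Nat.one_le_pow _ _ (by omega)
  have hA8 : 8 * h ≤ A.card := by
    calc 8 * h = 8 * h * 1 * 1 := by ring
      _ ≤ 8 * h * (88 * h) ^ d * (h + k).choose h :=
        Nat.mul_le_mul (Nat.mul_le_mul_left _ h88) hch
      _ ≤ A.card := hA
  set r : ℕ := A.card / (4 * h) + 1 with hr
  have hr1 : 1 ≤ r := by rw [hr]; exact Nat.le_add_left 1 _
  have hrA : r ≤ A.card := by
    have h1 : A.card / (4 * h) ≤ A.card / 4 := Nat.div_le_div_left (by omega) (by norm_num)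
    omega
  obtain ⟨v, hv, W, hWA, hWc, hWd⟩ := cluster G hd A r hr1 hrA
  -- the cluster is large
  have hApos : (0 : ℝ) < A.card := by
    have : 0 < A.card := by omega
    exact_mod_cast this
  have hrpos : (0 : ℝ) < r := by exact_mod_cast hr1
  have hhpos : (0 : ℝ) < h := by exact_mod_cast hh
  have hlt : A.card < 4 * h * r := by
    rw [hr]
    have := Nat.lt_mul_div_succ A.card (show 0 < 4 * h by omega)
    simpa using this
  have hratio : 22 * (A.card : ℝ) / r ≤ 88 * h := by
    rw [div_le_iff₀ hrpos]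
    have : (A.card : ℝ) < 4 * h * r := by exact_mod_cast hlt
    nlinarith
  have hW1 : (A.card : ℝ) ≤ (88 * h) ^ d * W.card := by
    refine hWc.trans ?_
    gcongr
  have hW2 : A.card ≤ (88 * h) ^ d * W.card := by exact_mod_cast hW1
  have hWbig : (h + k).choose h ≤ W.card := by
    have h2 : (88 * h) ^ d * (h + k).choose h ≤ (88 * h) ^ d * W.card := by
      refine le_trans ?_ hW2
      refine le_trans ?_ hA
      calc (88 * h) ^ d * (h + k).choose h = 1 * (88 * h) ^ d * (h + k).choose h := by ring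
        _ ≤ 8 * h * (88 * h) ^ d * (h + k).choose h :=
          Nat.mul_le_mul_right _ (Nat.mul_le_mul_right _ (by omega))
    exact Nat.le_of_mul_le_mul_left h2 (by omega)
  -- majority
  obtain ⟨c, hc⟩ : ∃ c : Bool, A.card ≤ 2 * (A.filter (fun x => (G.Adj v x ↔ c = true))).card := by
    have hsplit := Finset.card_filter_add_card_filter_not (s := A) (fun x => G.Adj v x)
    rcases le_or_gt A.card (2 * (A.filter (fun x => G.Adj v x)).card) with h1 | h1
    · refine ⟨true, ?_⟩
      simpa using h1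
    · refine ⟨false, ?_⟩
      have e : (A.filter (fun x => (G.Adj v x ↔ false = true))) = A.filter (fun x => ¬ G.Adj v x) := by
        apply Finset.filter_congr
        intro x _
        simp
      rw [e]
      omega
  obtain ⟨I, hIW, hIc, hI⟩ := ramsey G c k h hG hG' W hWbig
  refine ⟨c, I, (A.filter (fun x => (G.Adj v x ↔ c = true))) \
    (I ∪ I.biUnion (fun w => diffOn G A v w)), hIW.trans hWA,
    sdiff_subset.trans (filter_subset _ _), ?_, hIc, ?_, hI, ?_⟩
  · rw [Finset.disjoint_left]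
    intro x hx hx2
    rw [mem_sdiff, mem_union, not_or] at hx2
    exact hx2.2.1 hx
  · have h1 : (I ∪ I.biUnion (fun w => diffOn G A v w)).card ≤ h + h * (A.card / (4 * h)) := by
      refine (card_union_le _ _).trans ?_
      rw [hIc]
      refine Nat.add_le_add_left ?_ _
      refine (card_biUnion_le_card_mul I _ (A.card / (4 * h)) ?_).trans (by rw [hIc])
      intro w hw
      have := hWd w (hIW hw)
      rw [hr] at this
      omega
    have h2 : 4 * (h * (A.card / (4 * h))) ≤ A.card := by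
      calc 4 * (h * (A.card / (4 * h))) = 4 * h * (A.card / (4 * h)) := by ring
        _ ≤ A.card := Nat.mul_div_le _ _
    have h3 := Finset.le_card_sdiff (I ∪ I.biUnion (fun w => diffOn G A v w))
      (A.filter (fun x => (G.Adj v x ↔ c = true)))
    omega
  · intro x hx y hy
    rw [mem_sdiff, mem_union, not_or, mem_filter, mem_biUnion] at hy
    obtain ⟨⟨hyA, hyc⟩, -, hy2⟩ := hy
    intro hW
    apply hy2
    refine ⟨x, hx, ?_⟩
    unfold diffOn
    rw [mem_filter]
    refine ⟨hyA, ?_⟩
    intro h4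
    exact hW (h4.symm.trans hyc)

open scoped Classical in
/-- the chain -/
theorem vc_chain {V : Type} (G : SimpleGraph V) {d h k : ℕ} (hd : VCle G d) (hh : 1 ≤ h)
    (hG : G.CliqueFree k) (hG' : Gᶜ.CliqueFree k) (r : ℕ) :
    ∀ A : Finset V, 8 ^ r * (8 * h * (88 * h) ^ d * (h + k).choose h) ≤ A.card →
      ∃ (p q : ℕ) (J1 J0 : Finset V), p + q = r ∧ J1 ⊆ A ∧ J0 ⊆ A ∧ J1.card = p * h ∧
        J0.card = q * h ∧ (∀ x ∈ J1, ∀ y ∈ J1, x ≠ y → ¬ Wr G true x y) ∧
        (∀ x ∈ J0, ∀ y ∈ J0, x ≠ y → ¬ Wr G false x y) := by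
  induction r with
  | zero =>
    intro A _
    exact ⟨0, 0, ∅, ∅, rfl, empty_subset _, empty_subset _, by simp, by simp, by simp, by simp⟩
  | succ r ih =>
    intro A hA
    have h8 : 1 ≤ 8 ^ (r + 1) := Nat.one_le_pow _ _ (by norm_num)
    obtain ⟨c, I, A', hIA, hA'A, hdis, hIc, hcard, hI, hIA'⟩ := vc_step G hd hh hG hG' A (by
      refine le_trans ?_ hA
      exact Nat.le_mul_of_pos_left _ (by omega))
    obtain ⟨p, q, J1, J0, hpq, hJ1, hJ0, hJ1c, hJ0c, hJ1h, hJ0h⟩ := ih A' (by
      have : 8 ^ (r + 1) * (8 * h * (88 * h) ^ d * (h + k).choose h) =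
        8 * (8 ^ r * (8 * h * (88 * h) ^ d * (h + k).choose h)) := by ring
      omega)
    cases c with
    | true =>
      refine ⟨p + 1, q, I ∪ J1, J0, by omega, union_subset hIA (hJ1.trans hA'A),
        hJ0.trans hA'A, ?_, hJ0c, ?_, hJ0h⟩
      · rw [card_union_of_disjoint (disjoint_of_subset_right hJ1 hdis), hIc, hJ1c]
        ring
      · intro x hx y hy hxy
        rw [mem_union] at hx hy
        rcases hx with hx | hx <;> rcases hy with hy | hy
        · exact hI x hx y hy hxy
        · exact hIA' x hx y (hJ1 hy)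
        · rw [Wr.comm]; exact hIA' y hy x (hJ1 hx)
        · exact hJ1h x hx y hy hxy
    | false =>
      refine ⟨p, q + 1, J1, I ∪ J0, by omega, hJ1.trans hA'A,
        union_subset hIA (hJ0.trans hA'A), hJ1c, ?_, hJ1h, ?_⟩
      · rw [card_union_of_disjoint (disjoint_of_subset_right hJ0 hdis), hIc, hJ0c]
        ring
      · intro x hx y hy hxy
        rw [mem_union] at hx hy
        rcases hx with hx | hx <;> rcases hy with hy | hy
        · exact hI x hx y hy hxy
        · exact hIA' x hx y (hJ0 hy)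
        · rw [Wr.comm]; exact hIA' y hy x (hJ0 hx)
        · exact hJ0h x hx y hy hxy

/-- **The finite upper bound.** -/
theorem vc_upper {n : ℕ} (G : SimpleGraph (Fin n)) {d h k T : ℕ} (hd : VCle G d) (hh : 1 ≤ h)
    (hT : 1 ≤ T) (hk : k ≤ T * h) (hG : G.CliqueFree k) (hG' : Gᶜ.CliqueFree k) :
    n < 8 ^ (2 * T) * (h * (88 * h) ^ d * (h + k).choose h) := by
  classical
  by_contra hcon
  push Not at hcon
  obtain ⟨p, q, J1, J0, hpq, -, -, hJ1c, hJ0c, hJ1h, hJ0h⟩ :=
    vc_chain G hd hh hG hG' (2 * T - 1) univ (by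
      rw [card_univ, Fintype.card_fin]
      refine le_trans (le_of_eq ?_) hcon
      obtain ⟨s, rfl⟩ : ∃ s, T = s + 1 := ⟨T - 1, by omega⟩
      have e1 : 2 * (s + 1) - 1 = 2 * s + 1 := by omega
      have e2 : 2 * (s + 1) = 2 * s + 1 + 1 := by ring
      rw [e1, e2, pow_succ 8 (2 * s + 1)]
      ring)
  rcases le_or_gt T p with hp | hp
  · have h1 : k ≤ J1.card := by
      rw [hJ1c]; exact hk.trans (Nat.mul_le_mul_right _ hp)
    obtain ⟨J, hJ, hJk⟩ := Finset.exists_subset_card_eq h1
    refine hG J ⟨?_, hJk⟩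
    intro x hx y hy hxy
    have := hJ1h x (hJ (by exact_mod_cast hx)) y (hJ (by exact_mod_cast hy)) hxy
    simpa [Wr] using this
  · have h1 : k ≤ J0.card := by
      rw [hJ0c]; exact hk.trans (Nat.mul_le_mul_right _ (by omega))
    obtain ⟨J, hJ, hJk⟩ := Finset.exists_subset_card_eq h1
    refine hG' J ⟨?_, hJk⟩
    intro x hx y hy hxy
    have := hJ0h x (hJ (by exact_mod_cast hx)) y (hJ (by exact_mod_cast hy)) hxy
    rw [compl_adj]
    refine ⟨hxy, ?_⟩
    simpa [Wr] using this

end Pool.Agent.Y422.RC
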